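import Mathlib
import Pool.Agent.Lib.MP_44a246_nt.Tangent

/-!
The dimension of the tangent space and the transcendence degree.
-/

namespace Pool.Agent.Lib.MP_44a246_ntN

open Pool.Agent.Lib.MP_44a246_nt Pool.Agent.Lib.MP_e52354_nt

open Cardinal in
/-- The tangent space at a point over `k₁` has dimension larger than the transcendence degree of
the point over `k₁` (in fact the dimension is the transcendence degree plus one). -/
theorem le_finrank_tangent {k₁ L : Type*} [Field k₁] [CharZero k₁] [Field L] [Algebra k₁ L]
    {n : ℕ} {x : Fin (n + 1) → L} (hx : x ≠ 0) {T : ℕ}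
    (hT : (T : Cardinal) ≤ Algebra.trdeg k₁ (pointField k₁ x)) :
    T + 1 ≤ Module.finrank L (tangent (Set.range (algebraMap k₁ L)) x) := by
  classical
  obtain ⟨l, hl⟩ : ∃ l, x l ≠ 0 := by
    by_contra hcon
    push Not at hcon
    exact hx (funext hcon)
  let q : Fin (n + 1) → L := fun k => x k / x l
  obtain ⟨B, hB⟩ := (AlgebraicIndependent.matroid k₁ L).exists_isBasis (Set.range q)
  obtain ⟨hBind, hBsub, hBalg⟩ := AlgebraicIndependent.matroid_isBasis_iff.mp hB
  have hBfin : B.Finite := (Set.finite_range q).subset hBsub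
  have : Fintype B := hBfin.fintype
  have hmem : ∀ k, x k / x l ∈ pointField k₁ x := fun k =>
    IntermediateField.subset_adjoin _ _ ⟨k, l, rfl⟩
  have hmemB : ∀ b ∈ B, b ∈ pointField k₁ x := by
    intro b hb
    obtain ⟨k, rfl⟩ := hBsub hb
    exact hmem k
  let qb : B → pointField k₁ x := fun b => ⟨b, hmemB b b.2⟩
  -- the point field is algebraic over `k₁(B)`
  have halgq : ∀ k, IsAlgebraic (Algebra.adjoin k₁ (Set.range qb))
      (⟨x k / x l, hmem k⟩ : pointField k₁ x) := by
    intro k
    have hB' : ∀ u ∈ Algebra.adjoin k₁ B, ∃ hu : u ∈ pointField k₁ x,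
        (⟨u, hu⟩ : pointField k₁ x) ∈ Algebra.adjoin k₁ (Set.range qb) := by
      intro u hu
      induction hu using Algebra.adjoin_induction with
      | mem u hu => exact ⟨hmemB u hu, Algebra.subset_adjoin ⟨⟨u, hu⟩, rfl⟩⟩
      | algebraMap c =>
        exact ⟨(pointField k₁ x).algebraMap_mem c, (Algebra.adjoin k₁ (Set.range qb)).algebraMap_mem c⟩
      | add a b _ _ ha hb =>
        obtain ⟨ha1, ha2⟩ := ha
        obtain ⟨hb1, hb2⟩ := hb
        exact ⟨AddMemClass.add_mem ha1 hb1, AddMemClass.add_mem ha2 hb2⟩
      | mul a b _ _ ha hb =>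
        obtain ⟨ha1, ha2⟩ := ha
        obtain ⟨hb1, hb2⟩ := hb
        exact ⟨MulMemClass.mul_mem ha1 hb1, MulMemClass.mul_mem ha2 hb2⟩
    let f : Algebra.adjoin k₁ B →+* Algebra.adjoin k₁ (Set.range qb) :=
      { toFun := fun u => ⟨⟨u, (hB' u u.2).1⟩, (hB' u u.2).2⟩
        map_one' := rfl
        map_mul' := fun _ _ => rfl
        map_zero' := rfl
        map_add' := fun _ _ => rfl }
    have hf : Function.Injective f := by
      intro a b hab
      have h1 : ((f a : pointField k₁ x) : L) = ((f b : pointField k₁ x) : L) := by rw [hab]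
      exact Subtype.ext h1
    obtain ⟨p, hp0, hp⟩ := hBalg (q k) ⟨k, rfl⟩
    refine ⟨p.map f, (Polynomial.map_ne_zero_iff hf).mpr hp0, ?_⟩
    rw [Polynomial.aeval_def, Polynomial.eval₂_map]
    apply Subtype.ext
    have h2 := Polynomial.hom_eval₂ p ((algebraMap (Algebra.adjoin k₁ (Set.range qb))
      (pointField k₁ x)).comp f) (algebraMap (pointField k₁ x) L) ⟨x k / x l, hmem k⟩
    refine Eq.trans h2 ?_
    exact hp
  have halg : Algebra.IsAlgebraic (Algebra.adjoin k₁ (Set.range qb)) (pointField k₁ x) := by
    refine ⟨fun z => ?_⟩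
    obtain ⟨z, hz⟩ := z
    show IsAlgebraic _ (⟨z, hz⟩ : pointField k₁ x)
    induction hz using IntermediateField.adjoin_induction with
    | mem z hz =>
      obtain ⟨i, j, rfl⟩ := hz
      by_cases hj : x j = 0
      · have : (⟨x i / x j, IntermediateField.subset_adjoin _ _ ⟨i, j, rfl⟩⟩ :
            pointField k₁ x) = 0 := by
          apply Subtype.ext
          show x i / x j = 0
          rw [hj, div_zero]
        rw [this]
        exact isAlgebraic_zero
      · have : (⟨x i / x j, IntermediateField.subset_adjoin _ _ ⟨i, j, rfl⟩⟩ :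
            pointField k₁ x) = ⟨x i / x l, hmem i⟩ * (⟨x j / x l, hmem j⟩)⁻¹ := by
          apply Subtype.ext
          show x i / x j = x i / x l * (x j / x l)⁻¹
          field_simp
        rw [this]
        exact (halgq i).mul (halgq j).inv
    | algebraMap c =>
      exact isAlgebraic_algebraMap (algebraMap k₁ (Algebra.adjoin k₁ (Set.range qb)) c)
    | add x y _ _ hx hy => exact hx.add hy
    | inv x _ hx => exact hx.inv
    | mul x y _ _ hx hy => exact hx.mul hy
  have hcard : T ≤ Fintype.card B := by
    have h1 := hT.trans (Algebra.IsAlgebraic.trdeg_le_cardinalMk k₁ (Set.range qb))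
    have h2 : #(Set.range qb) ≤ (Fintype.card B : ℕ) := by
      have h3 := mk_range_le_lift (f := qb)
      rw [mk_fintype, lift_natCast] at h3
      simpa using h3
    exact_mod_cast h1.trans h2
  -- the derivations
  obtain ⟨B', hB', hB2⟩ := exists_isTranscendenceBasis_superset (R := k₁) (A := L) (s := B) hBind
  have := hB2.isAlgebraic
  have hex : ∀ b : B, ∃ D : Derivation k₁ L L, ∀ b' : B', D b' = if (b' : L) = b then (1 : L) else 0 := by
    intro b
    exact exists_derivation hB2.1 (fun b' => if (b' : L) = b then (1 : L) else 0)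
  choose D hD using hex
  have hDB : ∀ b c : B, D b (c : L) = if c = b then (1 : L) else 0 := by
    intro b c
    have h1 := hD b ⟨c, hB' c.2⟩
    simp only at h1
    rw [h1]
    by_cases h : c = b
    · subst h; simp
    · rw [if_neg h, if_neg (fun h2 => h (Subtype.ext h2))]
  let w : Option B → (Fin (n + 1) → L) := fun o => o.elim x fun b k => D b (x k)
  have hw : ∀ o, w o ∈ tangent (Set.range (algebraMap k₁ L)) x := by
    rintro (_ | b)
    · exact ⟨1, 0, fun a _ => rfl, fun k => by simp [w]⟩
    · refine ⟨0, (D b).restrictScalars ℤ, ?_, fun k => by simp [w]⟩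
      rintro _ ⟨a, rfl⟩
      exact (D b).map_algebraMap a
  have hli : LinearIndependent L w := by
    rw [Fintype.linearIndependent_iff]
    intro c hc
    have hk : ∀ k, c none * x k + ∑ b, c (some b) * D b (x k) = 0 := by
      intro k
      have := congrFun hc k
      rw [Fintype.sum_option] at this
      simpa [w] using this
    have hb : ∀ b, c (some b) = 0 := by
      intro b
      obtain ⟨k, hk'⟩ := hBsub b.2
      have hbk : (b : L) * x l = x k := by
        rw [← hk']
        show x k / x l * x l = x k
        field_simp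
      have h1 : ∀ b', D b' (x k) = (b : L) * D b' (x l) + x l * (if b = b' then (1 : L) else 0) := by
        intro b'
        rw [← hbk, Derivation.leibniz, smul_eq_mul, smul_eq_mul, hDB]
      have h2 := hk k
      have h3 := hk l
      simp only [h1, mul_add, Finset.sum_add_distrib] at h2
      have h4 : ∑ b', c (some b') * (x l * (if b = b' then (1 : L) else 0)) = c (some b) * x l := by
        rw [Finset.sum_eq_single b]
        · rw [if_pos rfl, mul_one]
        · intro b' _ hb'
          rw [if_neg (Ne.symm hb'), mul_zero, mul_zero]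
        · intro h; exact absurd (Finset.mem_univ _) h
      have h5 : ∑ b', c (some b') * ((b : L) * D b' (x l)) = (b : L) * ∑ b', c (some b') * D b' (x l) := by
        rw [Finset.mul_sum]
        exact Finset.sum_congr rfl fun _ _ => by ring
      rw [h4, h5, ← hbk] at h2
      have h6 : c (some b) * x l = 0 := by linear_combination h2 - (b : L) * h3
      exact (mul_eq_zero.mp h6).resolve_right hl
    rintro (_ | b)
    · have h3 := hk l
      simp only [hb, zero_mul, Finset.sum_const_zero, add_zero] at h3
      exact (mul_eq_zero.mp h3).resolve_right hl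
    · exact hb b
  let w' : Option B → tangent (Set.range (algebraMap k₁ L)) x := fun o => ⟨w o, hw o⟩
  have hli' : LinearIndependent L w' := by
    refine LinearIndependent.of_comp (tangent (Set.range (algebraMap k₁ L)) x).subtype ?_
    exact hli
  have h1 := hli'.fintype_card_le_finrank
  rw [Fintype.card_option] at h1
  omega

/-- The tangent space over the field generated over `k₀` by a set. -/
theorem tangent_adjoin {k₀ L : Type*} [Field k₀] [CharZero k₀] [Field L] [Algebra k₀ L] {n : ℕ}
    (A : Set L) (x : Fin (n + 1) → L) :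
    tangent (Set.range (algebraMap (IntermediateField.adjoin k₀ A) L)) x =
      tangent (Set.range (algebraMap k₀ L) ∪ A) x := by
  have key : ∀ E : Derivation ℤ L L, (∀ a ∈ Set.range (algebraMap (IntermediateField.adjoin k₀ A) L),
      E a = 0) ↔ ∀ a ∈ Set.range (algebraMap k₀ L) ∪ A, E a = 0 := by
    intro E
    constructor
    · rintro h a (⟨c, rfl⟩ | ha)
      · exact h _ ⟨algebraMap k₀ _ c, rfl⟩
      · exact h a ⟨⟨a, IntermediateField.subset_adjoin k₀ A ha⟩, rfl⟩
    · rintro h _ ⟨⟨a, ha⟩, rfl⟩
      show E a = 0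
      induction ha using IntermediateField.adjoin_induction with
      | mem a ha => exact h a (Or.inr ha)
      | algebraMap c => exact h _ (Or.inl ⟨c, rfl⟩)
      | add x y _ _ hx hy => rw [map_add, hx, hy, add_zero]
      | inv x _ hx => rw [Derivation.leibniz_inv, hx, smul_zero]
      | mul x y _ _ hx hy => rw [Derivation.leibniz, hx, hy, smul_zero, smul_zero, add_zero]
  ext w
  constructor
  · rintro ⟨c, E, h1, h2⟩
    exact ⟨c, E, (key E).mp h1, h2⟩
  · rintro ⟨c, E, h1, h2⟩
    exact ⟨c, E, (key E).mpr h1, h2⟩

end Pool.Agent.Lib.MP_44a246_ntN
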