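import Mathlib

/-!
The Nullstellensatz for smooth pairs and its consequence for the gradients at a point close to
some of the hypersurfaces.
-/

namespace Pool.Agent.Lib.MP_44a246_ntN

open WithZero MvPolynomial

section Null

/-- the gradient of a polynomial at a point -/
noncomputable def grad {K A σ : Type*} [CommRing K] [CommRing A] [Algebra K A]
    (P : MvPolynomial σ K) (z : σ → A) : σ → A := fun k => aeval z (pderiv k P)

/-- The common zeros of the polynomials `G t` form a smooth projective variety `X` of codimension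
`N`, and for every `i` the subscheme `D i` of `X` defined by the polynomials `F i s` is locally
contained in a smooth divisor, these divisors being transversal: at every point `z` of `X` (over an
algebraic closure) there are `N` of the gradients of the `G t` and, for every `i` such that `z` lies
on `D i`, one of the gradients of the `F i s`, which are all together linearly independent. -/
def Transversal {K : Type*} [Field K] {n : ℕ} {τ ι σ : Type*}
    (G : τ → MvPolynomial (Fin (n + 1)) K) (F : ι → σ → MvPolynomial (Fin (n + 1)) K)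
    (N : ℕ) : Prop :=
  ∀ z : Fin (n + 1) → AlgebraicClosure K, z ≠ 0 → (∀ t, aeval z (G t) = 0) →
    ∃ (s : Fin N → τ) (c : ι → σ), LinearIndependent (AlgebraicClosure K)
      (Sum.elim (fun j => grad (G (s j)) z)
        (fun i : {i // ∀ s, aeval z (F i s) = 0} => grad (F i.1 (c i.1)) z))

/-- homogeneous Nullstellensatz -/
theorem null_identity {K : Type*} [Field K] {n : ℕ} {ν : Type*} [Finite ν]
    (P : ν → MvPolynomial (Fin (n + 1)) K)
    (h : ∀ z : Fin (n + 1) → AlgebraicClosure K, (∀ i, aeval z (P i) = 0) → z = 0) :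
    ∃ M : ℕ, ∀ k, (X k : MvPolynomial (Fin (n + 1)) K) ^ M ∈ Ideal.span (Set.range P) := by
  have h1 : ∀ k, (X k : MvPolynomial (Fin (n + 1)) K) ∈ (Ideal.span (Set.range P)).radical := by
    intro k
    rw [← vanishingIdeal_zeroLocus_eq_radical (K := AlgebraicClosure K), mem_vanishingIdeal_iff]
    intro z hz
    rw [zeroLocus_span] at hz
    have h2 : z = 0 := h z fun i => hz _ ⟨i, rfl⟩
    rw [h2, aeval_X]
    rfl
  choose m hm using h1
  refine ⟨∑ k, m k, fun k => ?_⟩
  have h2 : m k ≤ ∑ k, m k := Finset.single_le_sum (fun _ _ => Nat.zero_le _) (Finset.mem_univ k)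
  obtain ⟨e, he⟩ := Nat.exists_eq_add_of_le h2
  rw [he, pow_add]
  exact Ideal.mul_mem_right _ _ (hm k)

/-- values of polynomials with almost integral coefficients at integral points -/
theorem v_aeval_le {K L : Type*} [Field K] [Field L] [Algebra K L] {σ : Type*}
    (v : Valuation L ℤᵐ⁰) {δ : L} (P : MvPolynomial σ K)
    (hP : ∀ I, v (δ * algebraMap K L (P.coeff I)) ≤ 1) {z : σ → L} (hz : ∀ k, v (z k) ≤ 1) :
    v (δ * aeval z P) ≤ 1 := by
  rw [aeval_def, eval₂_eq, Finset.mul_sum]
  refine Valuation.map_sum_le v fun I _ => ?_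
  rw [← mul_assoc, map_mul, map_prod]
  refine mul_le_one' (hP I) (Finset.prod_le_one' fun k _ => ?_)
  rw [map_pow]
  exact pow_le_one' (hz k) _

/-- a linearly independent family of vectors has a nonzero maximal minor -/
theorem exists_minor {K : Type*} [Field K] {R C : Type*} [Fintype R] [DecidableEq R] [Fintype C]
    (A : R → C → K) (hA : LinearIndependent K A) :
    ∃ c : R → C, (Matrix.of fun r r' => A r (c r')).det ≠ 0 := by
  classical
  have h1 : (Matrix.of A).rank = Fintype.card R := LinearIndependent.rank_matrix hA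
  obtain ⟨f, hf1, -, hf3⟩ := Submodule.exists_fun_fin_finrank_span_eq K
    (Set.range (Matrix.of A).col)
  rw [Matrix.rank_eq_finrank_span_cols] at h1
  choose c' hc' using hf1
  let e : R ≃ Fin (Module.finrank K (Submodule.span K (Set.range (Matrix.of A).col))) :=
    Fintype.equivFinOfCardEq h1.symm
  refine ⟨fun r => c' (e r), ?_⟩
  have h2 : LinearIndependent K (Matrix.of fun r r' => A r (c' (e r'))).col := by
    have h3 : (Matrix.of fun r r' => A r (c' (e r'))).col = f ∘ e := by
      funext r'
      rw [Function.comp_apply, ← hc' (e r')]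
      rfl
    rw [h3]
    exact hf3.comp _ e.injective
  rw [Matrix.linearIndependent_cols_iff_isUnit, Matrix.isUnit_iff_isUnit_det] at h2
  exact h2.ne_zero

/-- the family of polynomials used in `null_local` -/
noncomputable def nullFam {K : Type*} [Field K] {n : ℕ} {τ ι σ : Type*} [DecidableEq ι]
    (G : τ → MvPolynomial (Fin (n + 1)) K) (F : ι → σ → MvPolynomial (Fin (n + 1)) K) (N : ℕ)
    (J : Finset ι) : τ ⊕ (({j // j ∈ J} × σ) ⊕ ((Fin N → τ) × ({j // j ∈ J} → σ) ×
      (Fin N ⊕ {j // j ∈ J} → Fin (n + 1)))) → MvPolynomial (Fin (n + 1)) K :=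
  Sum.elim G (Sum.elim (fun j => F j.1.1 j.2) fun p =>
    (Matrix.of fun r r' => Sum.elim (fun j => pderiv (p.2.2 r') (G (p.1 j)))
      (fun j : {j // j ∈ J} => pderiv (p.2.2 r') (F j.1 (p.2.1 j))) r).det)

theorem aeval_det {K A : Type*} [Field K] [CommRing A] [Algebra K A] {n : ℕ} {τ ι σ : Type*}
    [DecidableEq ι]
    (G : τ → MvPolynomial (Fin (n + 1)) K) (F : ι → σ → MvPolynomial (Fin (n + 1)) K) {N : ℕ}
    (J : Finset ι) (s : Fin N → τ) (u : {j // j ∈ J} → σ)
    (c : Fin N ⊕ {j // j ∈ J} → Fin (n + 1)) (z : Fin (n + 1) → A) :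
    aeval z (Matrix.of fun r r' => Sum.elim (fun j => pderiv (c r') (G (s j)))
      (fun j : {j // j ∈ J} => pderiv (c r') (F j.1 (u j))) r).det =
    (Matrix.of fun r r' => Sum.elim (fun j => grad (G (s j)) z)
          (fun j : {j // j ∈ J} => grad (F j.1 (u j)) z) r (c r')).det := by
  rw [AlgHom.map_det]
  congr 1
  ext r r'
  rcases r with r | r <;> rfl

/-- At a (normalised) point of the variety, the gradients of the hypersurfaces close to the point
are uniformly independent. -/
theorem null_local {K : Type*} [Field K] {n : ℕ} {τ ι σ : Type*} [Finite τ] [Finite ι] [Finite σ]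
    [DecidableEq ι]
    (G : τ → MvPolynomial (Fin (n + 1)) K) (F : ι → σ → MvPolynomial (Fin (n + 1)) K) {N : ℕ}
    (hT : Transversal G F N) :
    ∃ Y : Finset K, ∀ (L : Type*) [Field L] [Algebra K L] (v : Valuation L ℤᵐ⁰) (δ : L),
      v δ ≤ 1 → v δ ≠ 0 → (∀ y ∈ Y, v (δ * algebraMap K L y) ≤ 1) →
      ∀ z : Fin (n + 1) → L, (∀ k, v (z k) ≤ 1) → (∃ l, v (z l) = 1) →
      (∀ t, aeval z (G t) = 0) → ∀ J : Finset ι, (∀ j ∈ J, ∀ s, v (aeval z (F j s)) < v δ) →
      ∃ (s : Fin N → τ) (u : {j // j ∈ J} → σ) (c : Fin N ⊕ {j // j ∈ J} → Fin (n + 1)),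
        v δ ≤ v (Matrix.of fun r r' => Sum.elim (fun j => grad (G (s j)) z)
          (fun j : {j // j ∈ J} => grad (F j.1 (u j)) z) r (c r')).det := by
  classical
  cases nonempty_fintype τ
  cases nonempty_fintype ι
  cases nonempty_fintype σ
  -- the identities
  have h1 : ∀ J : Finset ι, ∃ M : ℕ, ∀ k, (X k : MvPolynomial (Fin (n + 1)) K) ^ M ∈
      Ideal.span (Set.range (nullFam G F N J)) := by
    intro J
    refine null_identity _ fun z hz => ?_
    by_contra hz0
    obtain ⟨s, u, hs⟩ := hT z hz0 fun t => hz (Sum.inl t)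
    have hJ : ∀ j ∈ J, ∀ s, aeval z (F j s) = 0 := fun j hj s =>
      hz (Sum.inr (Sum.inl (⟨j, hj⟩, s)))
    let emb : Fin N ⊕ {j // j ∈ J} → Fin N ⊕ {i // ∀ s, aeval z (F i s) = 0} :=
      Sum.map id fun j => ⟨j.1, hJ j.1 j.2⟩
    have hemb : Function.Injective emb := by
      refine Sum.map_injective.mpr ⟨Function.injective_id, ?_⟩
      intro a b hab
      exact Subtype.ext (Subtype.mk.inj hab)
    have h2 := hs.comp emb hemb
    obtain ⟨c, hc⟩ := exists_minor _ h2
    apply hc
    have h3 := hz (Sum.inr (Sum.inr (s, (fun j => u j.1), c)))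
    simp only [nullFam, Sum.elim_inr] at h3
    rw [aeval_det G F J s (fun j => u j.1) c z] at h3
    refine Eq.trans (congrArg Matrix.det ?_) h3
    ext r r'
    rcases r with r | r <;> rfl
  choose M hM using h1
  have h2 : ∀ (J : Finset ι) (k : Fin (n + 1)), ∃ a : _ → MvPolynomial (Fin (n + 1)) K,
      ∑ i, a i * nullFam G F N J i = X k ^ M J := fun J k =>
    Ideal.mem_span_range_iff_exists_fun.mp (hM J k)
  choose a ha using h2
  let Y : Finset K := Finset.univ.biUnion fun J : Finset ι => Finset.univ.biUnion fun k =>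
    Finset.univ.biUnion fun i => (a J k i).support.image fun I => (a J k i).coeff I
  refine ⟨Y, fun L _ _ v δ hδ1 hδ hY z hz ⟨l, hl⟩ hG J hJ => ?_⟩
  by_contra hcon
  push Not at hcon
  have h3 : δ * z l ^ M J = ∑ i, (δ * aeval z (a J l i)) * aeval z (nullFam G F N J i) := by
    have h4 := congrArg (aeval z) (ha J l)
    rw [map_pow, aeval_X, map_sum] at h4
    rw [← h4, Finset.mul_sum]
    exact Finset.sum_congr rfl fun i _ => by rw [map_mul, mul_assoc]
  have h4 : v (δ * z l ^ M J) = v δ := by rw [map_mul, map_pow, hl, one_pow, mul_one]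
  have h5 : v (δ * z l ^ M J) < v δ := by
    rw [h3]
    refine Valuation.map_sum_lt v hδ fun i _ => ?_
    have h6 : v (δ * aeval z (a J l i)) ≤ 1 := by
      refine v_aeval_le v _ (fun I => ?_) hz
      by_cases hI : I ∈ (a J l i).support
      · refine hY _ ?_
        simp only [Y, Finset.mem_biUnion]
        exact ⟨J, Finset.mem_univ _, l, Finset.mem_univ _, i, Finset.mem_univ _,
          Finset.mem_image_of_mem _ hI⟩
      · rw [MvPolynomial.notMem_support_iff.mp hI, map_zero, mul_zero, map_zero]
        exact zero_le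
    have h7 : v (aeval z (nullFam G F N J i)) < v δ := by
      rcases i with t | j | p
      · have : aeval z (nullFam G F N J (Sum.inl t)) = 0 := hG t
        rw [this, map_zero]
        exact zero_lt_iff.mpr hδ
      · exact hJ j.1.1 j.1.2 j.2
      · have := hcon p.1 p.2.1 p.2.2
        rw [← aeval_det G F J p.1 p.2.1 p.2.2 z] at this
        exact this
    rw [map_mul]
    calc v (δ * aeval z (a J l i)) * v (aeval z (nullFam G F N J i))
        ≤ 1 * v (aeval z (nullFam G F N J i)) := mul_le_mul_left h6 _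
      _ = v (aeval z (nullFam G F N J i)) := one_mul _
      _ < v δ := h7
  rw [h4] at h5
  exact lt_irrefl _ h5

end Null

end Pool.Agent.Lib.MP_44a246_ntN
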