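import Mathlib
import Pool.Agent.Lib.MP_44a246_nt.Main2

/-!
The Pluecker height of a subspace in terms of an arbitrary basis.
-/

namespace Pool.Agent.Lib.MP_44a246_ntN

open Pool.Agent.Lib.MP_e52354_nt Pool.Agent.Lib.MP_44a246_nt WithZero Polynomial

section Height

variable {κ L : Type*} [Field κ] [IsAlgClosed κ] [CharZero κ] [Field L] [Algebra κ L]
  [Algebra κ[X] L] [IsScalarTower κ κ[X] L]
  [Algebra (RatFunc κ) L] [IsScalarTower κ[X] (RatFunc κ) L]
  [Algebra (Rinf κ) L] [IsScalarTower (Rinf κ) (RatFunc κ) L]
  [FiniteDimensional (RatFunc κ) L]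

omit [IsAlgClosed κ] [CharZero κ] [Algebra κ[X] L] [IsScalarTower κ κ[X] L]
  [Algebra (RatFunc κ) L] [IsScalarTower κ[X] (RatFunc κ) L]
  [Algebra (Rinf κ) L] [IsScalarTower (Rinf κ) (RatFunc κ) L]
  [FiniteDimensional (RatFunc κ) L] [Algebra κ L] [Field κ] in
theorem vmax_mul {σ : Type*} [Fintype σ] (v : Valuation L ℤᵐ⁰) (c : L) (y : σ → L) :
    vmax v (fun j => c * y j) = v c * vmax v y := by
  apply le_antisymm
  · refine Finset.sup_le fun j _ => ?_
    rw [map_mul]
    exact mul_le_mul' le_rfl (Finset.le_sup (f := fun j => v (y j)) (Finset.mem_univ j))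
  · by_cases hσ : (Finset.univ : Finset σ).Nonempty
    · obtain ⟨j, -, hj⟩ := Finset.exists_max_image Finset.univ (fun j => v (y j)) hσ
      have h1 : vmax v y = v (y j) :=
        le_antisymm (Finset.sup_le hj) (Finset.le_sup (f := fun j => v (y j)) (Finset.mem_univ j))
      rw [h1, ← map_mul]
      exact Finset.le_sup (f := fun j => v (c * y j)) (Finset.mem_univ j)
    · rw [Finset.not_nonempty_iff_eq_empty] at hσ
      unfold vmax
      rw [hσ, Finset.sup_empty, Finset.sup_empty]
      simp

theorem height_mul {σ : Type*} [Fintype σ] {c : L} (hc : c ≠ 0) {y : σ → L} (hy : y ≠ 0) :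
    height κ (fun j => c * y j) = height κ y := by
  classical
  unfold height
  have h1 : ∀ v : Place κ L, log (vmax v.1 (fun j => c * y j)) =
      log (v.1 c) + log (vmax v.1 y) := by
    intro v
    rw [vmax_mul]
    refine log_mul ((Valuation.ne_zero_iff v.1).mpr hc) ?_
    obtain ⟨l, hl⟩ : ∃ l, y l ≠ 0 := by
      by_contra hcon
      push Not at hcon
      exact hy (funext hcon)
    intro h0
    have h2 : v.1 (y l) ≤ vmax v.1 y := Finset.le_sup (f := fun k => v.1 (y k)) (Finset.mem_univ l)
    rw [h0, le_zero_iff, Valuation.zero_iff] at h2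
    exact hl h2
  simp only [h1]
  rw [finsum_add_distrib, product_formula (κ := κ) hc, zero_add]
  · refine (place_finite hc).subset fun v hv => ?_
    intro h2
    apply hv
    simp only
    rw [h2, log_one]
  · refine (vmax_finite hy).subset fun v hv => ?_
    intro h2
    apply hv
    simp only
    rw [h2, log_one]

omit [IsAlgClosed κ] [CharZero κ] [Algebra κ[X] L] [IsScalarTower κ κ[X] L]
  [Algebra (RatFunc κ) L] [IsScalarTower κ[X] (RatFunc κ) L]
  [Algebra (Rinf κ) L] [IsScalarTower (Rinf κ) (RatFunc κ) L]
  [FiniteDimensional (RatFunc κ) L] in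
theorem height_equiv {σ σ' : Type*} [Fintype σ] [Fintype σ'] (e : σ ≃ σ') (y : σ' → L) :
    height κ (fun j => y (e j)) = height κ y := by
  unfold height
  congr 1
  funext v
  congr 1
  unfold vmax
  apply le_antisymm
  · exact Finset.sup_le fun j _ => Finset.le_sup (f := fun j => v.1 (y j)) (Finset.mem_univ (e j))
  · refine Finset.sup_le fun j _ => ?_
    have := Finset.le_sup (f := fun j => v.1 (y (e j))) (Finset.mem_univ (e.symm j))
    simpa using this

theorem subHeight_eq {σ R : Type*} [Fintype σ] [Fintype R] [DecidableEq R]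
    {W : Submodule L (σ → L)} (b : Module.Basis R L W)
    (hb : (fun A : R → σ => (Matrix.of fun i j => (b i : σ → L) (A j)).det) ≠ 0) :
    subHeight κ W =
      height κ (fun A : R → σ => (Matrix.of fun i j => (b i : σ → L) (A j)).det) := by
  classical
  have hfin : Module.Finite L W := Module.Finite.of_basis b
  have hcard : Fintype.card R = Module.finrank L W := (Module.finrank_eq_card_basis b).symm
  let e : R ≃ Fin (Module.finrank L W) := Fintype.equivFinOfCardEq hcard
  let b' : Module.Basis R L W := (Module.finBasis L W).reindex e.symm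
  -- change of basis
  let T : Matrix R R L := Matrix.of fun i j => b'.repr (b i) j
  have hT : ∀ A : R → σ, (Matrix.of fun i j => (b i : σ → L) (A j)).det =
      T.det * (Matrix.of fun i j => (b' i : σ → L) (A j)).det := by
    intro A
    rw [← Matrix.det_mul]
    congr 1
    ext i j
    rw [Matrix.mul_apply]
    show (b i : σ → L) (A j) = ∑ k, b'.repr (b i) k * (b' k : σ → L) (A j)
    conv_lhs => rw [← b'.sum_repr (b i)]
    rw [Submodule.coe_sum, Finset.sum_apply]
    rfl
  have hT0 : T.det ≠ 0 := by
    intro h0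
    apply hb
    funext A
    rw [hT, h0, zero_mul]
    rfl
  have hb' : (fun A : R → σ => (Matrix.of fun i j => (b' i : σ → L) (A j)).det) ≠ 0 := by
    intro h0
    apply hb
    funext A
    rw [hT, congrFun h0 A]
    simp
  simp only [hT]
  rw [height_mul hT0 hb']
  unfold subHeight
  let ε : (R → σ) ≃ (Fin (Module.finrank L W) → σ) := Equiv.arrowCongr e (Equiv.refl σ)
  rw [← height_equiv ε]
  congr 1
  funext A
  have h1 : (Matrix.of fun i j => ((Module.finBasis L W) i : σ → L) (ε A j)) =
      Matrix.reindex e e (Matrix.of fun i j => (b' i : σ → L) (A j)) := by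
    ext i j
    simp only [b', ε, Matrix.reindex_apply, Matrix.submatrix_apply, Matrix.of_apply,
      Module.Basis.reindex_apply, Equiv.symm_symm, Equiv.apply_symm_apply,
      Equiv.arrowCongr_apply, Function.comp_apply, Equiv.refl_apply]
  rw [h1, Matrix.det_reindex_self]

end Height

end Pool.Agent.Lib.MP_44a246_ntN
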