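import Mathlib

/-!
Linear algebra: minors of a matrix whose rows are orthogonal to given vectors.
-/

namespace Pool.Agent.Lib.MP_44a246_ntN

open WithZero

section Minor

theorem v_det_le_one {L : Type*} [Field L] (v : Valuation L ℤᵐ⁰) {R : Type*} [Fintype R]
    [DecidableEq R] (M : Matrix R R L) (hM : ∀ r r', v (M r r') ≤ 1) : v M.det ≤ 1 := by
  rw [Matrix.det_apply]
  refine Valuation.map_sum_le v fun σ _ => ?_
  have h1 : v (∏ i, M (σ i) i) ≤ 1 := by
    rw [map_prod]
    exact Finset.prod_le_one' fun i _ => hM _ _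
  rcases Int.units_eq_one_or (Equiv.Perm.sign σ) with h | h
  · rw [h, one_smul]
    exact h1
  · rw [h, Units.neg_smul, one_smul, Valuation.map_neg]
    exact h1

theorem v_adjugate_le_one {L : Type*} [Field L] (v : Valuation L ℤᵐ⁰) {R : Type*} [Fintype R]
    [DecidableEq R] (M : Matrix R R L) (hM : ∀ r r', v (M r r') ≤ 1) (i j : R) :
    v (M.adjugate i j) ≤ 1 := by
  rw [Matrix.adjugate_apply]
  refine v_det_le_one v _ fun r r' => ?_
  rw [Matrix.updateRow_apply]
  by_cases h : r = j
  · rw [if_pos h, Pi.single_apply]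
    by_cases h' : r' = i
    · rw [if_pos h', map_one]
    · rw [if_neg h', map_zero]
      exact zero_le
  · rw [if_neg h]
    exact hM _ _

/-- Let the rows of `MX` be orthogonal to the vectors `g (inl r)`. If the minor with the columns `c`
of the vectors `g` is not zero, then all the maximal minors of `MX` are controlled by a single
determinant, whose columns are the columns of `MX` outside `c` and the products of `MX` with the
vectors `g (inr j)`. -/
theorem minor_le {L : Type*} [Field L] (v : Valuation L ℤᵐ⁰) {n N : ℕ} {R J : Type*} [Fintype R]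
    [DecidableEq R] [Fintype J] [DecidableEq J] (MX : Matrix R (Fin (n + 1)) L)
    (g : Fin N ⊕ J → Fin (n + 1) → L) (hg : ∀ r k, v (g r k) ≤ 1)
    (horth : ∀ ρ (r : Fin N), ∑ k, MX ρ k * g (Sum.inl r) k = 0)
    (c : Fin N ⊕ J → Fin (n + 1)) (hμ : (Matrix.of fun r r' => g r (c r')).det ≠ 0)
    (hcard : Fintype.card R + N = n + 1) :
    ∃ e : R → Fin (n + 1) ⊕ J,
      Nat.card {ρ // (e ρ).isLeft} + Fintype.card J = Fintype.card R ∧
      (∀ w : J → L, ∏ ρ, Sum.elim (fun _ => (1 : L)) w (e ρ) = ∏ j, w j) ∧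
      ∀ A : R → Fin (n + 1),
        v (Matrix.of fun r r' => g r (c r')).det ^ Fintype.card R *
            v (Matrix.of fun ρ ρ' => MX ρ (A ρ')).det ≤
          v (Matrix.of fun ρ ρ' => Sum.elim (fun k => MX ρ k)
            (fun j => ∑ k, MX ρ k * g (Sum.inr j) k) (e ρ')).det := by
  classical
  set Gm : Matrix (Fin N ⊕ J) (Fin N ⊕ J) L := Matrix.of fun r r' => g r (c r') with hGm
  set μ := Gm.det with hμd
  have hGmle : ∀ r r', v (Gm r r') ≤ 1 := fun r r' => hg _ _
  have hμle : v μ ≤ 1 := v_det_le_one v _ hGmle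
  -- `c` is injective
  have hc : Function.Injective c := by
    intro a b hab
    by_contra hne
    refine hμ (Matrix.det_zero_of_column_eq hne fun r => ?_)
    show g r (c a) = g r (c b)
    rw [hab]
  let α := {k : Fin (n + 1) // k ∉ Set.range c}
  have hα : Fintype.card α + (N + Fintype.card J) = n + 1 := by
    have h1 : Fintype.card {k : Fin (n + 1) // k ∈ Set.range c} = N + Fintype.card J := by
      rw [Fintype.card_congr (Equiv.ofInjective c hc).symm, Fintype.card_sum, Fintype.card_fin]
    have h2 := Fintype.card_subtype_compl (fun k : Fin (n + 1) => k ∈ Set.range c)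
    have h3 : Fintype.card {k : Fin (n + 1) // k ∈ Set.range c} ≤ Fintype.card (Fin (n + 1)) :=
      Fintype.card_subtype_le _
    rw [h1, Fintype.card_fin] at h2 h3
    have h4 : Fintype.card α = n + 1 - (N + Fintype.card J) := h2
    omega
  have hcard' : Fintype.card R = Fintype.card (α ⊕ J) := by
    rw [Fintype.card_sum]
    omega
  let e₀ : R ≃ α ⊕ J := Fintype.equivOfCardEq hcard'
  -- the sum over all columns
  have hsum : ∀ f : Fin (n + 1) → L, ∑ k, f k = ∑ r, f (c r) + ∑ k : α, f k := by
    intro f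
    rw [← Fintype.sum_subtype_add_sum_subtype (fun k : Fin (n + 1) => k ∈ Set.range c) f]
    congr 1
    have h1 := Equiv.sum_comp (Equiv.ofInjective c hc) (fun k : {k // k ∈ Set.range c} => f k)
    refine Eq.trans ?_ h1.symm
    exact Finset.sum_congr (by ext; simp) fun _ _ => rfl
  -- the expression of the columns
  let E' : R → α ⊕ J → L := fun ρ => Sum.elim (fun k => MX ρ k)
    (fun j => ∑ k, MX ρ k * g (Sum.inr j) k)
  have hb : ∀ k₀ : Fin (n + 1), ∃ b : α ⊕ J → L, (∀ x, v (b x) ≤ 1) ∧
      ∀ ρ, μ * MX ρ k₀ = ∑ x, E' ρ x * b x := by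
    intro k₀
    by_cases hk : k₀ ∈ Set.range c
    · obtain ⟨r₀, rfl⟩ := hk
      refine ⟨Sum.elim (fun k => -∑ r, Gm.adjugate r₀ r * g r k)
        (fun j => Gm.adjugate r₀ (Sum.inr j)), ?_, fun ρ => ?_⟩
      · rintro (k | j)
        · show v (-∑ r, Gm.adjugate r₀ r * g r k) ≤ 1
          rw [Valuation.map_neg]
          refine Valuation.map_sum_le v fun r _ => ?_
          rw [map_mul]
          exact mul_le_one' (v_adjugate_le_one v _ hGmle _ _) (hg _ _)
        · exact v_adjugate_le_one v _ hGmle _ _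
      · have h1 : ∀ r, ∑ r', Gm r r' * MX ρ (c r') =
            ∑ k, MX ρ k * g r k - ∑ k : α, MX ρ k * g r k := by
          intro r
          rw [hsum, add_sub_cancel_right]
          exact Finset.sum_congr rfl fun r' _ => mul_comm _ _
        have h2 : μ * MX ρ (c r₀) = ∑ r, Gm.adjugate r₀ r * ∑ r', Gm r r' * MX ρ (c r') := by
          have h3 := congrFun (congrArg (fun M : Matrix _ _ L => M.mulVec fun r' => MX ρ (c r'))
            (Matrix.adjugate_mul Gm)) r₀
          simp only [← Matrix.mulVec_mulVec, Matrix.smul_mulVec, Matrix.one_mulVec] at h3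
          exact h3.symm
        rw [h2]
        simp only [h1]
        rw [Fintype.sum_sum_type, Fintype.sum_sum_type]
        simp only [horth, zero_sub]
        simp only [E', Sum.elim_inl, Sum.elim_inr, mul_sub, Finset.sum_sub_distrib]
        have h4 : ∀ k : α, MX ρ k * -∑ r, Gm.adjugate r₀ r * g r k =
            -(∑ r, Gm.adjugate r₀ (Sum.inl r) * (MX ρ k * g (Sum.inl r) k)) -
              ∑ j, Gm.adjugate r₀ (Sum.inr j) * (MX ρ k * g (Sum.inr j) k) := by
          intro k
          rw [Fintype.sum_sum_type, mul_neg, mul_add, Finset.mul_sum, Finset.mul_sum, neg_add,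
            ← sub_eq_add_neg]
          congr 1
          · congr 1
            exact Finset.sum_congr rfl fun r _ => by ring
          · exact Finset.sum_congr rfl fun r _ => by ring
        simp only [h4]
        rw [Finset.sum_sub_distrib, Finset.sum_neg_distrib, Finset.sum_comm]
        have h5 : ∑ r : Fin N, Gm.adjugate r₀ (Sum.inl r) * -∑ k : α, MX ρ k * g (Sum.inl r) k =
            -∑ r : Fin N, ∑ k : α, Gm.adjugate r₀ (Sum.inl r) * (MX ρ k * g (Sum.inl r) k) := by
          rw [← Finset.sum_neg_distrib]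
          exact Finset.sum_congr rfl fun r _ => by rw [mul_neg, Finset.mul_sum]
        have h6 : ∑ j : J, Gm.adjugate r₀ (Sum.inr j) * ∑ k : α, MX ρ k * g (Sum.inr j) k =
            ∑ k : α, ∑ j : J, Gm.adjugate r₀ (Sum.inr j) * (MX ρ k * g (Sum.inr j) k) := by
          rw [Finset.sum_comm]
          exact Finset.sum_congr rfl fun j _ => by rw [Finset.mul_sum]
        rw [h5, h6]
        have h7 : ∑ j : J, Gm.adjugate r₀ (Sum.inr j) * ∑ k, MX ρ k * g (Sum.inr j) k =
            ∑ j : J, (∑ k, MX ρ k * g (Sum.inr j) k) * Gm.adjugate r₀ (Sum.inr j) :=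
          Finset.sum_congr rfl fun j _ => mul_comm _ _
        rw [h7]
        ring
    · refine ⟨Sum.elim (fun k => if (k : Fin (n + 1)) = k₀ then μ else 0) (fun _ => 0), ?_,
        fun ρ => ?_⟩
      · rintro (k | j)
        · show v (if (k : Fin (n + 1)) = k₀ then μ else 0) ≤ 1
          by_cases h : (k : Fin (n + 1)) = k₀
          · rw [if_pos h]; exact hμle
          · rw [if_neg h, map_zero]; exact zero_le
        · show v 0 ≤ 1
          rw [map_zero]; exact zero_le
      · rw [Fintype.sum_sum_type]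
        simp only [E', Sum.elim_inl, Sum.elim_inr, mul_zero, Finset.sum_const_zero, add_zero]
        rw [Finset.sum_eq_single (⟨k₀, hk⟩ : α)]
        · rw [if_pos rfl, mul_comm]
        · intro k _ hk'
          rw [if_neg, mul_zero]
          intro h
          exact hk' (Subtype.ext h)
        · intro h
          exact absurd (Finset.mem_univ _) h
  choose b hb1 hb2 using hb
  refine ⟨fun ρ => Sum.map Subtype.val id (e₀ ρ), ?_, fun w => ?_, fun A => ?_⟩
  · have h1 : Nat.card {ρ // (Sum.map (Subtype.val : α → Fin (n + 1)) (id : J → J) (e₀ ρ)).isLeft} =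
        Nat.card {x : α ⊕ J // x.isLeft} := by
      refine Nat.card_congr (Equiv.subtypeEquiv e₀ fun ρ => ?_)
      rcases e₀ ρ with x | x <;> simp
    have h2 : Nat.card {x : α ⊕ J // x.isLeft} = Nat.card α := by
      refine Nat.card_congr
        { toFun := fun x => x.1.getLeft x.2
          invFun := fun x => ⟨Sum.inl x, rfl⟩
          left_inv := ?_
          right_inv := ?_ }
      · rintro ⟨x | x, hx⟩
        · rfl
        · exact absurd hx (by simp)
      · intro x
        rfl
    rw [h1, h2, Nat.card_eq_fintype_card, hcard', Fintype.card_sum]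
  · rw [Equiv.prod_comp e₀ (fun x => Sum.elim (fun _ => (1 : L)) w
      (Sum.map (Subtype.val : α → Fin (n + 1)) (id : J → J) x)), Fintype.prod_sum_type]
    simp
  · set M : Matrix R R L := Matrix.of fun ρ ρ' => MX ρ (A ρ') with hM
    let E : Matrix R R L := Matrix.of fun ρ ρ' => E' ρ (e₀ ρ')
    let B : Matrix R R L := Matrix.of fun ρ ρ' => b (A ρ') (e₀ ρ)
    have h1 : μ • M = E * B := by
      ext ρ ρ'
      rw [Matrix.smul_apply, Matrix.mul_apply]
      show μ * MX ρ (A ρ') = ∑ x, E' ρ (e₀ x) * b (A ρ') (e₀ x)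
      rw [hb2 (A ρ') ρ]
      exact (Equiv.sum_comp e₀ (fun x => E' ρ x * b (A ρ') x)).symm
    have h2 : μ ^ Fintype.card R * M.det = E.det * B.det := by
      rw [← Matrix.det_mul, ← h1, Matrix.det_smul]
    have h3 : v B.det ≤ 1 := v_det_le_one v _ fun ρ ρ' => hb1 _ _
    have h4 : (Matrix.of fun ρ ρ' => Sum.elim (fun k => MX ρ k)
        (fun j => ∑ k, MX ρ k * g (Sum.inr j) k)
        (Sum.map (Subtype.val : α → Fin (n + 1)) (id : J → J) (e₀ ρ'))) = E := by
      ext ρ ρ'
      simp only [E, E', Matrix.of_apply]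
      rcases e₀ ρ' with x | x <;> rfl
    rw [h4, ← map_pow, ← map_mul, h2, map_mul]
    calc v E.det * v B.det ≤ v E.det * 1 := mul_le_mul_right h3 _
      _ = v E.det := mul_one _

end Minor

end Pool.Agent.Lib.MP_44a246_ntN
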