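import Mathlib
import Pool.Agent.Lib.MP_44a246_ntN.HeightG
import Pool.Agent.Lib.MP_44a246_ntN.MinorG

/-!
The logarithmic inequality at one place for smooth pairs.
-/

namespace Pool.Agent.Lib.MP_44a246_ntN

open Pool.Agent.Lib.MP_e52354_nt Pool.Agent.Lib.MP_44a246_nt WithZero

section Grad

variable {n : ℕ} {L : Type*} [Field L]

theorem sum_grad_point (e : ℕ) (g : Expo n → L) (x : Fin (n + 1) → L) :
    ∑ k, grad e g x k * x k = (e : L) * Fval e g x := by
  unfold grad Fval
  simp only [Finset.sum_mul, Finset.mul_sum]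
  rw [Finset.sum_comm]
  refine Finset.sum_congr rfl fun I hI => ?_
  rw [mem_expo, Finsupp.degree_eq_sum] at hI
  have h1 : ∀ k, g I * (I k : L) * mon x (I - Finsupp.single k 1) * x k =
      (I k : L) * (g I * mon x I) := by
    intro k
    have := mon_sub x I k
    linear_combination (g I) * this
  simp only [h1]
  rw [← Finset.sum_mul, ← Nat.cast_sum, hI]

theorem sum_grad_der (e : ℕ) (g : Expo n → L) (E : Derivation ℤ L L)
    (hE : ∀ I ∈ expo (Fin (n + 1)) e, E (g I) = 0) (x : Fin (n + 1) → L) :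
    ∑ k, grad e g x k * E (x k) = E (Fval e g x) := by
  have h : ∑ I ∈ expo (Fin (n + 1)) e, E (g I) * mon x I = 0 :=
    Finset.sum_eq_zero fun I hI => by rw [hE I hI, zero_mul]
  rw [D_Fval, h, zero_add]

theorem v_mon_le (v : Valuation L ℤᵐ⁰) {q : Fin (n + 1) → L} (hq : ∀ k, v (q k) ≤ 1)
    (I : Expo n) : v (mon q I) ≤ 1 := by
  unfold mon
  rw [map_prod]
  refine Finset.prod_le_one' fun k _ => ?_
  rw [map_pow]
  exact pow_le_one' (hq k) _

theorem v_grad_le (v : Valuation L ℤᵐ⁰) {δ : L} {e : ℕ} {g : Expo n → L}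
    (hg : ∀ I ∈ expo (Fin (n + 1)) e, v (δ * g I) ≤ 1) {q : Fin (n + 1) → L}
    (hq : ∀ k, v (q k) ≤ 1) (k : Fin (n + 1)) : v (δ * grad e g q k) ≤ 1 := by
  unfold grad
  rw [Finset.mul_sum]
  refine v.map_sum_le fun I hI => ?_
  have h1 : δ * (g I * (I k : L) * mon q (I - Finsupp.single k 1)) =
      (δ * g I) * ((I k : L) * mon q (I - Finsupp.single k 1)) := by ring
  rw [h1, v.map_mul]
  refine _root_.mul_le_one' (hg I hI) ?_
  rw [v.map_mul]
  exact _root_.mul_le_one' (v_nat v _) (v_mon_le v hq _)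

end Grad

section RowsM

variable {n : ℕ} {L : Type*} [Field L]

/-- the matrix with the rows `x` and the derivatives of `x` -/
def rowsM {R : Type*} (x : Fin (n + 1) → L) (E : R → Derivation ℤ L L) :
    Matrix (Option R) (Fin (n + 1)) L :=
  Matrix.of fun ρ k => Option.elim ρ (x k) (fun ρ => E ρ (x k))

/-- the vector of the maximal minors of `rowsM` -/
noncomputable def minorsM {R : Type*} [Fintype R] [DecidableEq R] (x : Fin (n + 1) → L)
    (E : R → Derivation ℤ L L) (A : Option R → Fin (n + 1)) : L :=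
  (Matrix.of fun i j => rowsM x E i (A j)).det

theorem minorsM_scale {R : Type*} [Fintype R] [DecidableEq R] {α : L} (hα : α ≠ 0)
    (q : Fin (n + 1) → L) (E : R → Derivation ℤ L L) (A : Option R → Fin (n + 1)) :
    minorsM (fun k => α * q k) E A = α ^ (Fintype.card R + 1) * minorsM q E A := by
  have h1 := det_bigM_scale (d := fun j : Empty => j.elim) (a := fun j : Empty => j.elim) hα q
    (fun ρ => Sum.inl (A ρ)) E
  have h2 : ∀ y : Fin (n + 1) → L, minorsM y E A = (bigM (fun j : Empty => j.elim)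
      (fun j : Empty => j.elim) (fun ρ => Sum.inl (A ρ)) y E).det := by
    intro y
    unfold minorsM
    congr 1
    ext i j
    rcases i with _ | i <;> rfl
  rw [h2, h2, h1]
  congr 2
  have : {b : Option R // (Sum.inl (A b) : Fin (n + 1) ⊕ Empty).isLeft = true} ≃
      Option R := Equiv.subtypeUnivEquiv fun _ => rfl
  rw [Nat.card_congr this, Nat.card_eq_fintype_card, Fintype.card_option]

end RowsM

section PlaceG

variable {R K₀ K L : Type*} [CommRing R] [IsDomain R] [IsPrincipalIdealRing R]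
    [Field K₀] [Algebra R K₀] [IsFractionRing R K₀]
    [Field K] [Algebra R K] [Algebra K₀ K] [IsScalarTower R K₀ K] [FiniteDimensional K₀ K]
    [Algebra.IsSeparable K₀ K]
    [Field L] [Algebra R L] [Algebra K₀ L] [IsScalarTower R K₀ L] [FiniteDimensional K₀ L]
    [Algebra.IsSeparable K₀ L] [Algebra K L] [IsScalarTower R K L]

variable {n : ℕ} {ι τ σ : Type*} [Fintype ι] [DecidableEq ι] [Fintype σ] {𝓑 : Type*}
variable {d : ι → ℕ} {a : ι → σ → Expo n → L} {e : τ → ℕ} {g : τ → Expo n → L}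
  {EK : 𝓑 → Derivation ℤ K K} {EL : 𝓑 → Derivation ℤ L L}

open Classical in
include K₀ in
/-- The inequality at one place. -/
theorem place_ineqG (v : Valuation L ℤᵐ⁰) (hsurj : Function.Surjective v)
    (hv : ∀ ρ : R, v (algebraMap R L ρ) ≤ 1)
    (hextE : ∀ b y, EL b (algebraMap K L y) = algebraMap K L (EK b y))
    {δ : R} (hδ0 : v (algebraMap R L δ) ≠ 0)
    (hδE : ∀ b, ∀ y : K, IsIntegral R y → IsIntegral R (algebraMap R K δ * EK b y))
    (hδa : ∀ j s, ∀ I ∈ expo (Fin (n + 1)) (d j), v (algebraMap R L δ * a j s I) ≤ 1)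
    (hδg : ∀ t, ∀ I ∈ expo (Fin (n + 1)) (e t), v (algebraMap R L δ * g t I) ≤ 1)
    (C : Set L) (hC : ∀ c ∈ C, ∃ c' : K, IsIntegral R c' ∧ c = algebraMap K L c')
    (hres : ∀ y, v y ≤ 1 → ∃ c ∈ C, v (y - c) < 1) (hnat : ∀ k : ℕ, k ≠ 0 → v (k : L) = 1)
    {s₀ : K} {e₀ : ℕ} (he₀ : 1 ≤ e₀) (hs₀ : v (algebraMap K L s₀) = exp (-(e₀ : ℤ)))
    {x : Fin (n + 1) → L} (hx : x ≠ 0) {r' N : ℕ} (hN : r' + 1 + N = n + 1)
    (b : Fin r' → 𝓑)
    (hEa : ∀ b j s, ∀ I ∈ expo (Fin (n + 1)) (d j), EL b (a j s I) = 0)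
    (hEg : ∀ b t, ∀ I ∈ expo (Fin (n + 1)) (e t), EL b (g t I) = 0)
    (hy0 : ∀ j, ∃ s, Fval (d j) (a j s) x ≠ 0) (hG : ∀ t, Fval (e t) (g t) x = 0)
    (hnull : ∀ z : Fin (n + 1) → L, (∀ k, v (z k) ≤ 1) → (∃ l, v (z l) = 1) →
      (∀ t, Fval (e t) (g t) z = 0) → ∀ J : Finset ι,
      (∀ j ∈ J, ∀ s, v (Fval (d j) (a j s) z) < v (algebraMap R L δ)) →
      ∃ (s : Fin N → τ) (u : {j // j ∈ J} → σ) (c : Fin N ⊕ {j // j ∈ J} → Fin (n + 1)),
        v (algebraMap R L δ) ≤ v (Matrix.of fun r r' =>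
          Sum.elim (fun i => grad (e (s i)) (g (s i)) z)
            (fun j : {j // j ∈ J} => grad (d j.1) (a j.1 (u j)) z) r (c r')).det)
    (hp : minorsM x (fun k => EL (b k)) ≠ 0) :
    log (vmax v (minorsM x (fun k => EL (b k)))) +
        ((∑ i, d i : ℕ) : ℤ) * log (vmax v x) +
        ((r' + (N + Fintype.card ι + 1) * (r' + 1) + Fintype.card ι : ℕ) : ℤ) *
          log (v (algebraMap R L δ)) ≤
      ((r' + 1 : ℕ) : ℤ) * log (vmax v x) +
        ∑ j, log (vmax v (fun s => Fval (d j) (a j s) x)) + ((e₀ - 1 : ℕ) : ℤ) +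
        (if ∃ j, ∀ s, v (Fval (d j) (a j s) x) < vmax v x ^ d j then 1 else 0) := by
  obtain ⟨π, hπ⟩ := hsurj (exp (-1 : ℤ))
  obtain ⟨hpol, hord⟩ := chart_polar (K₀ := K₀) v hv (fun k : Fin r' => EK (b k))
    (fun k : Fin r' => EL (b k)) (fun k y => hextE _ y) δ (fun k y hy => hδE _ y hy)
    C hC hres hnat hπ he₀ hs₀
  set δL := algebraMap R L δ with hδL
  obtain ⟨l, hl0, hlmax, hle⟩ := exists_vmax v hx
  have hvmax : vmax v x ≠ 0 := by rw [hlmax]; exact (Valuation.ne_zero_iff v).mpr hl0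
  have hδ1 : v δL ≤ 1 := hv δ
  -- the normalised point
  set α := x l with hα
  set q : Fin (n + 1) → L := fun k => x k / α with hqdef
  have hxq : x = fun k => α * q k := by
    funext k
    show x k = α * (x k / α)
    field_simp
  have hqle : ∀ k, v (q k) ≤ 1 := by
    intro k
    rw [hqdef]
    simp only
    rw [map_div₀]
    exact div_le_one_of_le₀ (hle k) zero_le
  have hql : v (q l) = 1 := by
    have : q l = 1 := div_self hl0
    rw [this, map_one]
  have hyq : ∀ j s, Fval (d j) (a j s) x = α ^ d j * Fval (d j) (a j s) q := by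
    intro j s
    conv_lhs => rw [hxq]
    exact Fval_smul _ _ _ _
  have hyq0 : ∀ j, ∃ s, Fval (d j) (a j s) q ≠ 0 := by
    intro j
    obtain ⟨s, hs⟩ := hy0 j
    refine ⟨s, fun h => hs ?_⟩
    rw [hyq, h, mul_zero]
  have hGq : ∀ t, Fval (e t) (g t) q = 0 := by
    intro t
    have h1 := hG t
    rw [hxq, Fval_smul] at h1
    exact (mul_eq_zero.mp h1).resolve_left (pow_ne_zero _ hl0)
  have hvα : v α ≠ 0 := (Valuation.ne_zero_iff v).mpr hl0
  -- the set of the indices such that all the forms are small at the point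
  set J : Finset ι := Finset.univ.filter fun j => ∀ s, v (Fval (d j) (a j s) q) < v δL with hJ
  obtain ⟨s, u, c, hc⟩ := hnull q hqle ⟨l, hql⟩ hGq J (fun j hj => (Finset.mem_filter.mp hj).2)
  set k₂ : ℕ := if J.Nonempty then 1 else 0 with hk₂
  let d' : {j // j ∈ J} → ℕ := fun j => d j.1
  let a' : {j // j ∈ J} → Expo n → L := fun j => a j.1 (u j)
  set μ := (Matrix.of fun r r' => Sum.elim (fun i => grad (e (s i)) (g (s i)) q)
    (fun j : {j // j ∈ J} => grad (d j.1) (a j.1 (u j)) q) r (c r')).det with hμ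
  let E : Fin r' → Derivation ℤ L L := fun k => EL (b k)
  let MX : Matrix (Option (Fin r')) (Fin (n + 1)) L := rowsM q E
  let gg : Fin N ⊕ {j // j ∈ J} → Fin (n + 1) → L := fun r k =>
    δL * (Sum.elim (fun i => grad (e (s i)) (g (s i)) q)
      (fun j : {j // j ∈ J} => grad (d j.1) (a j.1 (u j)) q) r k)
  have hgg : ∀ r k, v (gg r k) ≤ 1 := by
    rintro (i | j) k
    · exact v_grad_le v (hδg (s i)) hqle k
    · exact v_grad_le v (hδa j.1 (u j)) hqle k
  have horth : ∀ ρ (r : Fin N), ∑ k, MX ρ k * gg (Sum.inl r) k = 0 := by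
    intro ρ r
    have h1 : ∀ w : Fin (n + 1) → L, ∑ k, grad (e (s r)) (g (s r)) q k * w k = 0 →
        ∑ k, w k * gg (Sum.inl r) k = 0 := by
      intro w hw
      have : ∀ k, w k * gg (Sum.inl r) k = δL * (grad (e (s r)) (g (s r)) q k * w k) := by
        intro k
        show w k * (δL * grad (e (s r)) (g (s r)) q k) = _
        ring
      simp only [this]
      rw [← Finset.mul_sum, hw, mul_zero]
    rcases ρ with _ | ρ
    · refine h1 q ?_
      rw [sum_grad_point, hGq, mul_zero]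
    · refine h1 (fun k => E ρ (q k)) ?_
      rw [sum_grad_der _ _ _ (fun I hI => hEg _ _ I hI), hGq, map_zero]
  have hδ0' : δL ≠ 0 := (Valuation.ne_zero_iff v).mp hδ0
  have hμ0 : μ ≠ 0 := by
    intro h
    rw [h, map_zero, le_zero_iff] at hc
    exact hδ0 hc
  have hdetgg : (Matrix.of fun r r' => gg r (c r')).det =
      δL ^ Fintype.card (Fin N ⊕ {j // j ∈ J}) * μ := by
    rw [hμ, ← Matrix.det_smul]
    congr 1
  have hT : Fintype.card (Option (Fin r')) = r' + 1 := by
    rw [Fintype.card_option, Fintype.card_fin]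
  obtain ⟨e', he1, he2, he3⟩ := minor_le v MX gg hgg horth c (by
    rw [hdetgg]; exact mul_ne_zero (pow_ne_zero _ hδ0') hμ0) (by
    rw [hT]; exact hN)
  -- the minors of the point
  have hpx : ∀ A : Option (Fin r') → Fin (n + 1),
      minorsM x E A = α ^ (r' + 1) * minorsM q E A := by
    intro A
    have h1 := minorsM_scale hl0 q E A
    rw [Fintype.card_fin] at h1
    rw [← h1, ← hxq]
  set p : (Option (Fin r') → Fin (n + 1)) → L := minorsM x (fun k => EL (b k)) with hpdef
  obtain ⟨A₀, hA₀⟩ : ∃ A, p A ≠ 0 := by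
    by_contra hcon
    push Not at hcon
    exact hp (funext hcon)
  have hcolval : ∀ j : {j // j ∈ J}, ∀ ρ, ∑ k, MX ρ k * gg (Sum.inr j) k =
      δL * Option.elim ρ ((d j.1 : L) * Fval (d j.1) (a j.1 (u j)) q)
        (fun ρ => E ρ (Fval (d j.1) (a j.1 (u j)) q)) := by
    intro j ρ
    have h3 : ∀ w : Fin (n + 1) → L, ∑ k, w k * gg (Sum.inr j) k =
        δL * ∑ k, grad (d j.1) (a j.1 (u j)) q k * w k := by
      intro w
      rw [Finset.mul_sum]
      refine Finset.sum_congr rfl fun k _ => ?_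
      show w k * (δL * grad (d j.1) (a j.1 (u j)) q k) = _
      ring
    rcases ρ with _ | ρ
    · have := h3 q
      rw [sum_grad_point] at this
      exact this
    · have := h3 (fun k => E ρ (q k))
      rw [sum_grad_der _ _ _ (fun I hI => hEa _ _ _ I hI)] at this
      exact this
  have hyJ0 : ∀ j : {j // j ∈ J}, Fval (d j.1) (a j.1 (u j)) q ≠ 0 := by
    intro j h0
    obtain ⟨ρ₀, hρ₀⟩ : ∃ ρ, e' ρ = Sum.inr j := by
      by_contra hcon
      push Not at hcon
      have h1 := he2 (fun i => if i = j then 0 else 1)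
      have h2 : ∏ i, (if i = j then (0 : L) else 1) = 0 :=
        Finset.prod_eq_zero (Finset.mem_univ j) (if_pos rfl)
      rw [h2] at h1
      obtain ⟨ρ, -, hρ⟩ := Finset.prod_eq_zero_iff.mp h1
      rcases he : e' ρ with k | i
      · rw [he, Sum.elim_inl] at hρ
        exact one_ne_zero hρ
      · rw [he, Sum.elim_inr] at hρ
        by_cases hij : i = j
        · exact hcon ρ (by rw [he, hij])
        · rw [if_neg hij] at hρ
          exact one_ne_zero hρ
    have h1 : (Matrix.of fun ρ ρ' => Sum.elim (fun k => MX ρ k)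
        (fun j => ∑ k, MX ρ k * gg (Sum.inr j) k) (e' ρ')).det = 0 := by
      refine Matrix.det_eq_zero_of_column_eq_zero ρ₀ fun ρ => ?_
      simp only [Matrix.of_apply, hρ₀, Sum.elim_inr]
      rw [hcolval, h0]
      rcases ρ with _ | ρ
      · simp
      · simp
    have h2 := he3 A₀
    rw [h1, map_zero, le_zero_iff, hdetgg] at h2
    rcases mul_eq_zero.mp h2 with h3 | h3
    · have h4 := pow_eq_zero_iff (by omega) |>.mp h3
      rw [Valuation.zero_iff] at h4
      exact mul_ne_zero (pow_ne_zero _ hδ0') hμ0 h4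
    · rw [Valuation.zero_iff] at h3
      apply hA₀
      have : minorsM q E A₀ = 0 := h3
      exact (hpx A₀).trans (by rw [this, mul_zero])
  let col : Option (Fin r') → Fin (n + 1) ⊕ {j // j ∈ J} := e'
  let f : Fin (n + 1) ⊕ {j // j ∈ J} → L :=
    Sum.elim (fun _ => 1) (fun j => δL * Fval (d j.1) (a j.1 (u j)) q)
  have hYdet : (Matrix.of fun ρ ρ' => Sum.elim (fun k => MX ρ k)
      (fun j => ∑ k, MX ρ k * gg (Sum.inr j) k) (e' ρ')).det =
      (∏ j : {j // j ∈ J}, (δL * Fval (d j.1) (a j.1 (u j)) q)) * (bigM d' a' col q E).det := by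
    have h1 : (Matrix.of fun ρ ρ' => Sum.elim (fun k => MX ρ k)
        (fun j => ∑ k, MX ρ k * gg (Sum.inr j) k) (e' ρ')) =
        Matrix.of fun ρ ρ' => f (e' ρ') * bigM d' a' col q E ρ ρ' := by
      ext ρ ρ'
      simp only [Matrix.of_apply]
      have h2 : bigM d' a' col q E ρ ρ' = (Option.elim ρ (vecP d' a' q)
          (fun ρ => vecE d' a' q (E ρ))) (e' ρ') := rfl
      rw [h2]
      rcases e' ρ' with k | j
      · simp only [Sum.elim_inl, f, one_mul]
        rcases ρ with _ | ρ <;> rfl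
      · simp only [Sum.elim_inr, f]
        rw [hcolval]
        have hy' : yv d' a' q j ≠ 0 := hyJ0 j
        rcases ρ with _ | ρ
        · simp only [Option.elim_none, vecP, Sum.elim_inr, if_neg hy']
          show δL * ((d j.1 : L) * Fval (d j.1) (a j.1 (u j)) q) =
            δL * Fval (d j.1) (a j.1 (u j)) q * (d j.1 : L)
          ring
        · simp only [Option.elim_some, vecE, Sum.elim_inr, if_neg hy']
          show δL * E ρ (Fval (d j.1) (a j.1 (u j)) q) =
            δL * Fval (d j.1) (a j.1 (u j)) q * (E ρ (Fval (d j.1) (a j.1 (u j)) q) /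
              Fval (d j.1) (a j.1 (u j)) q)
          rw [mul_assoc, mul_div_cancel₀ _ (hyJ0 j)]
    rw [h1, Matrix.det_mul_row]
    congr 1
    rw [← he2 (fun j => δL * Fval (d j.1) (a j.1 (u j)) q)]
  -- the upper bound
  have hup : v δL ^ r' * v (bigM d' a' col q E).det ≤ exp ((e₀ - 1 + k₂ : ℕ) : ℤ) := by
    have h1 := det_bigM_norm (a := a') (d := d') v hπ (fun k : Fin r' => δL • E k) (by
      intro y hy
      obtain ⟨g', hg', h⟩ := hpol y hy
      exact ⟨g', hg', h⟩) (k₁ := e₀ - 1) (k₂ := k₂) (by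
      intro ρ
      have he : ((e₀ - 1 : ℕ) : ℤ) = (e₀ : ℤ) - 1 := by omega
      rw [he]
      exact hord ρ) hqle (by
      intro j _
      right
      rw [hk₂, if_pos ⟨j.1, j.2⟩]) col
    rw [bigM_smul, map_mul, Finset.prod_const, Finset.card_univ, Fintype.card_fin, map_pow] at h1
    exact h1
  -- comparison
  let Yq : ι → ℤᵐ⁰ := fun j => vmax v (fun s => Fval (d j) (a j s) q)
  have hcardJ : Fintype.card {j // j ∈ J} ≤ Fintype.card ι := by
    rw [Fintype.card_coe]
    exact Finset.card_le_univ _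
  have hprodJ : v δL ^ Fintype.card ι *
      ∏ j : {j // j ∈ J}, v (Fval (d j.1) (a j.1 (u j)) q) ≤ ∏ j, Yq j := by
    have h0 : ∏ j : {j // j ∈ J}, v (Fval (d j.1) (a j.1 (u j)) q) ≤
        ∏ j : {j // j ∈ J}, Yq j.1 := Finset.prod_le_prod' fun j _ =>
      Finset.le_sup (f := fun s => v (Fval (d j.1) (a j.1 s) q)) (Finset.mem_univ (u j))
    have h1 : ∏ j, Yq j = (∏ j ∈ Finset.univ.filter
        (fun j => ¬ ∀ s, v (Fval (d j) (a j s) q) < v δL), Yq j) * ∏ j ∈ J, Yq j := by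
      rw [mul_comm, hJ]
      exact (Finset.prod_filter_mul_prod_filter_not _ _ _).symm
    rw [h1, ← Finset.prod_coe_sort J Yq]
    refine mul_le_mul' ?_ h0
    calc v δL ^ Fintype.card ι ≤
        v δL ^ (Finset.univ.filter (fun j => ¬ ∀ s, v (Fval (d j) (a j s) q) < v δL)).card :=
          pow_le_pow_right_of_le_one' hδ1 (Finset.card_le_univ _)
      _ = ∏ _j ∈ Finset.univ.filter (fun j => ¬ ∀ s, v (Fval (d j) (a j s) q) < v δL),
            v δL := by
          rw [Finset.prod_const]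
      _ ≤ _ := by
          refine Finset.prod_le_prod' fun j hj => ?_
          have h2 := (Finset.mem_filter.mp hj).2
          push Not at h2
          obtain ⟨s', hs'⟩ := h2
          exact hs'.trans (Finset.le_sup (f := fun s => v (Fval (d j) (a j s) q))
            (Finset.mem_univ s'))
  have key : ∀ A : Option (Fin r') → Fin (n + 1),
      v δL ^ (r' + (N + Fintype.card ι + 1) * (r' + 1) + Fintype.card ι) *
        v (minorsM q E A) ≤
      (∏ j, Yq j) * exp ((e₀ - 1 + k₂ : ℕ) : ℤ) := by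
    intro A
    have h1 := he3 A
    rw [hdetgg, hYdet, hT] at h1
    have h2 : (Matrix.of fun ρ ρ' => MX ρ (A ρ')).det = minorsM q E A := rfl
    rw [h2] at h1
    rw [map_mul, map_mul, map_pow, mul_pow, ← pow_mul, Finset.prod_mul_distrib, map_mul,
      Finset.prod_const, map_pow, map_prod] at h1
    set cJ := Fintype.card {j // j ∈ J} with hcJ
    have hcN : Fintype.card (Fin N ⊕ {j // j ∈ J}) = N + cJ := by
      rw [Fintype.card_sum, Fintype.card_fin]
    rw [hcN] at h1
    set P := v (minorsM q E A) with hP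
    have h3 : v δL ^ ((N + cJ) * (r' + 1)) * v δL ^ (r' + 1) * P ≤
        (∏ j : {j // j ∈ J}, v (Fval (d j.1) (a j.1 (u j)) q)) *
          v (bigM d' a' col q E).det := by
      calc v δL ^ ((N + cJ) * (r' + 1)) * v δL ^ (r' + 1) * P
          ≤ v δL ^ ((N + cJ) * (r' + 1)) * v μ ^ (r' + 1) * P :=
            mul_le_mul' (mul_le_mul' le_rfl (pow_le_pow_left' hc _)) le_rfl
        _ ≤ _ := h1
        _ ≤ 1 * (∏ j : {j // j ∈ J}, v (Fval (d j.1) (a j.1 (u j)) q)) *
              v (bigM d' a' col q E).det :=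
            mul_le_mul' (mul_le_mul' (pow_le_one' hδ1 _) le_rfl) le_rfl
        _ = _ := by rw [one_mul]
    calc v δL ^ (r' + (N + Fintype.card ι + 1) * (r' + 1) + Fintype.card ι) * P
        ≤ v δL ^ (r' + ((N + cJ) * (r' + 1) + (r' + 1)) + Fintype.card ι) * P := by
          refine mul_le_mul' (pow_le_pow_right_of_le_one' hδ1 ?_) le_rfl
          have : (N + cJ) * (r' + 1) + (r' + 1) ≤ (N + Fintype.card ι + 1) * (r' + 1) := by
            rw [← Nat.succ_mul]
            exact Nat.mul_le_mul (by omega) le_rfl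
          omega
      _ = v δL ^ Fintype.card ι * (v δL ^ r' *
          (v δL ^ ((N + cJ) * (r' + 1)) * v δL ^ (r' + 1) * P)) := by
          rw [pow_add, pow_add, pow_add]; ac_rfl
      _ ≤ v δL ^ Fintype.card ι * (v δL ^ r' *
          ((∏ j : {j // j ∈ J}, v (Fval (d j.1) (a j.1 (u j)) q)) *
            v (bigM d' a' col q E).det)) :=
          mul_le_mul' le_rfl (mul_le_mul' le_rfl h3)
      _ = (v δL ^ Fintype.card ι * ∏ j : {j // j ∈ J}, v (Fval (d j.1) (a j.1 (u j)) q)) *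
          (v δL ^ r' * v (bigM d' a' col q E).det) := by ac_rfl
      _ ≤ _ := mul_le_mul' hprodJ hup
  -- back to the point
  obtain ⟨A₁, -, hA₁⟩ := Finset.exists_max_image Finset.univ (fun A => v (p A))
    ⟨A₀, Finset.mem_univ _⟩
  have hvp : vmax v p = v (p A₁) :=
    le_antisymm (Finset.sup_le hA₁) (Finset.le_sup (f := fun A => v (p A)) (Finset.mem_univ A₁))
  have hvp0 : vmax v p ≠ 0 := by
    intro h0
    have h1 : v (p A₀) ≤ vmax v p := Finset.le_sup (f := fun A => v (p A)) (Finset.mem_univ A₀)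
    rw [h0, le_zero_iff, Valuation.zero_iff] at h1
    exact hA₀ h1
  set M := r' + (N + Fintype.card ι + 1) * (r' + 1) + Fintype.card ι with hM
  have hYx : ∀ j, vmax v (fun s => Fval (d j) (a j s) x) = vmax v x ^ d j * Yq j := by
    intro j
    simp only [hyq]
    have h1 : vmax v (fun s => α ^ d j * Fval (d j) (a j s) q) =
        v (α ^ d j) * vmax v (fun s => Fval (d j) (a j s) q) := vmax_mul v _ _
    rw [h1, map_pow, hlmax]
  have hYx0 : ∀ j, vmax v (fun s => Fval (d j) (a j s) x) ≠ 0 := by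
    intro j h0
    obtain ⟨s', hs'⟩ := hy0 j
    have h1 : v (Fval (d j) (a j s') x) ≤ vmax v (fun s => Fval (d j) (a j s) x) :=
      Finset.le_sup (f := fun s => v (Fval (d j) (a j s) x)) (Finset.mem_univ s')
    rw [h0, le_zero_iff, Valuation.zero_iff] at h1
    exact hs' h1
  have hyprod : ∏ j, vmax v (fun s => Fval (d j) (a j s) x) =
      vmax v x ^ (∑ i, d i) * ∏ j, Yq j := by
    rw [← Finset.prod_pow_eq_pow_sum, ← Finset.prod_mul_distrib]
    exact Finset.prod_congr rfl fun j _ => hYx j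
  have hfinal : v δL ^ M * vmax v p * vmax v x ^ (∑ i, d i) ≤
      vmax v x ^ (r' + 1) * (∏ j, vmax v (fun s => Fval (d j) (a j s) x)) *
        exp ((e₀ - 1 + k₂ : ℕ) : ℤ) := by
    rw [hvp, hyprod]
    have h1 : v (p A₁) = vmax v x ^ (r' + 1) * v (minorsM q E A₁) := by
      rw [show p A₁ = α ^ (r' + 1) * minorsM q E A₁ from hpx A₁, map_mul, map_pow, hlmax]
    rw [h1]
    calc v δL ^ M * (vmax v x ^ (r' + 1) * v (minorsM q E A₁)) *
          vmax v x ^ (∑ i, d i)
        = vmax v x ^ (r' + 1) * vmax v x ^ (∑ i, d i) *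
          (v δL ^ M * v (minorsM q E A₁)) := by ac_rfl
      _ ≤ vmax v x ^ (r' + 1) * vmax v x ^ (∑ i, d i) *
          ((∏ j, Yq j) * exp ((e₀ - 1 + k₂ : ℕ) : ℤ)) := mul_le_mul' le_rfl (key A₁)
      _ = _ := by ac_rfl
  have hyprod0 : ∏ j, vmax v (fun s => Fval (d j) (a j s) x) ≠ 0 :=
    Finset.prod_ne_zero_iff.mpr fun j _ => hYx0 j
  have hlhs : v δL ^ M * vmax v p * vmax v x ^ (∑ i, d i) ≠ 0 :=
    mul_ne_zero (mul_ne_zero (pow_ne_zero _ hδ0) hvp0) (pow_ne_zero _ hvmax)
  have hrhs : vmax v x ^ (r' + 1) * (∏ j, vmax v (fun s => Fval (d j) (a j s) x)) *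
      exp ((e₀ - 1 + k₂ : ℕ) : ℤ) ≠ 0 :=
    mul_ne_zero (mul_ne_zero (pow_ne_zero _ hvmax) hyprod0) exp_ne_zero
  have h1 := (log_le_log hlhs hrhs).mpr hfinal
  rw [log_mul (mul_ne_zero (pow_ne_zero _ hδ0) hvp0) (pow_ne_zero _ hvmax),
    log_mul (pow_ne_zero _ hδ0) hvp0, log_pow', log_pow',
    log_mul (mul_ne_zero (pow_ne_zero _ hvmax) hyprod0) exp_ne_zero,
    log_mul (pow_ne_zero _ hvmax) hyprod0, log_pow', log_exp,
    log_prod' _ _ (fun j _ => hYx0 j)] at h1
  have h2 : ((e₀ - 1 + k₂ : ℕ) : ℤ) ≤ ((e₀ - 1 : ℕ) : ℤ) +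
      (if ∃ j, ∀ s, v (Fval (d j) (a j s) x) < vmax v x ^ d j then 1 else 0 : ℤ) := by
    rw [Nat.cast_add]
    refine add_le_add le_rfl ?_
    rw [hk₂]
    by_cases hJne : J.Nonempty
    · rw [if_pos hJne]
      obtain ⟨j, hj⟩ := hJne
      have h3 : ∃ j, ∀ s, v (Fval (d j) (a j s) x) < vmax v x ^ d j := by
        refine ⟨j, fun s => ?_⟩
        have h4 := ((Finset.mem_filter.mp hj).2 s).trans_le hδ1
        rw [hyq, map_mul, map_pow, ← hlmax]
        calc vmax v x ^ d j * v (Fval (d j) (a j s) q) < vmax v x ^ d j * 1 :=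
              mul_lt_mul_of_pos_left h4 (zero_lt_iff.mpr (pow_ne_zero _ hvmax))
          _ = _ := mul_one _
      rw [if_pos h3]
      rfl
    · rw [if_neg hJne]
      split_ifs <;> simp
  linarith

end PlaceG

end Pool.Agent.Lib.MP_44a246_ntN
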