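import Mathlib
import Pool.Agent.Lib.MP_44a246_ntN.PlaceG

/-!
The summation over all places for smooth pairs.
-/

namespace Pool.Agent.Lib.MP_44a246_ntN

open Pool.Agent.Lib.MP_e52354_nt Pool.Agent.Lib.MP_44a246_nt WithZero Polynomial

section TruncG

variable {R K L : Type*} [CommRing R] [Field K] [Algebra R K] [Field L] [Algebra R L]
  [Algebra K L] [IsScalarTower R K L]

theorem trunc_leG (v : Valuation L ℤᵐ⁰) (hv : ∀ ρ : R, v (algebraMap R L ρ) ≤ 1)
    {δ : R} (hδ0 : v (algebraMap R L δ) ≠ 0)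
    {s : K} (hs0 : s ≠ 0) (hδs : v (algebraMap R L δ * algebraMap K L s) ≤ 1)
    (hδs' : v (algebraMap R L δ * algebraMap K L s⁻¹) ≤ 1) (P : Prop) [Decidable P]
    [Decidable (v (algebraMap K L s) = 1 ∧ P)] :
    (if P then 1 else 0 : ℤ) ≤
      (if v (algebraMap K L s) = 1 ∧ P then 1 else 0) - log (v (algebraMap R L δ)) := by
  have hlog := log_nonpos (hv δ)
  by_cases h1 : v (algebraMap K L s) = 1
  · by_cases hP : P
    · rw [if_pos hP, if_pos ⟨h1, hP⟩]
      linarith
    · rw [if_neg hP, if_neg (fun h => hP h.2)]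
      linarith
  · have h2 : v (algebraMap R L δ) < 1 := by
      rcases (hv δ).lt_or_eq with h | h
      · exact h
      · exfalso
        apply h1
        rw [map_mul, h, one_mul] at hδs hδs'
        refine le_antisymm hδs ?_
        have h3 : v (algebraMap K L s) * v (algebraMap K L s⁻¹) = 1 := by
          rw [← map_mul, ← map_mul, mul_inv_cancel₀ hs0, map_one, map_one]
        calc (1 : ℤᵐ⁰) = v (algebraMap K L s) * v (algebraMap K L s⁻¹) := h3.symm
          _ ≤ v (algebraMap K L s) * 1 := mul_le_mul' le_rfl hδs'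
          _ = _ := mul_one _
    have h3 := log_le_neg_one hδ0 h2
    rw [if_neg (fun h : v (algebraMap K L s) = 1 ∧ P => h1 h.1)]
    split_ifs
    · linarith
    · linarith

end TruncG

section CoreG

variable {κ K L : Type*} [Field κ] [IsAlgClosed κ] [CharZero κ]
  [Field K] [Algebra κ K] [Algebra κ[X] K] [IsScalarTower κ κ[X] K]
  [Algebra (RatFunc κ) K] [IsScalarTower κ[X] (RatFunc κ) K]
  [Algebra (Rinf κ) K] [IsScalarTower (Rinf κ) (RatFunc κ) K]
  [FiniteDimensional (RatFunc κ) K]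
  [Field L] [Algebra κ L] [Algebra κ[X] L] [IsScalarTower κ κ[X] L]
  [Algebra (RatFunc κ) L] [IsScalarTower κ[X] (RatFunc κ) L]
  [Algebra (Rinf κ) L] [IsScalarTower (Rinf κ) (RatFunc κ) L]
  [FiniteDimensional (RatFunc κ) L]
  [Algebra K L] [IsScalarTower κ K L] [IsScalarTower κ[X] K L] [IsScalarTower (Rinf κ) K L]
  [FiniteDimensional K L]

variable {n : ℕ} {ι τ σ : Type*} [Fintype ι] [DecidableEq ι] [Fintype σ] {𝓑 : Type*}
variable {d : ι → ℕ} {aK : ι → σ → Expo n → K} {e : τ → ℕ} {gK : τ → Expo n → K}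
  {EK : 𝓑 → Derivation ℤ K K} {EL : 𝓑 → Derivation ℤ L L}

/-- the places counted by the truncated counting function -/
def truncSetG (d : ι → ℕ) (aK : ι → σ → Expo n → K) (s : K) (x : Fin (n + 1) → L) :
    Set (Place κ L) :=
  {v | v.1 (algebraMap K L s) = 1 ∧
    ∃ j, ∀ s', v.1 (Fval (d j) (fun I => algebraMap K L (aK j s' I)) x) < vmax v.1 x ^ d j}

theorem coreG
    (hextE : ∀ b y, EL b (algebraMap K L y) = algebraMap K L (EK b y))
    {s : K} (hs0 : s ≠ 0) (Y : Finset K)
    (hYa : ∀ j s, ∀ I ∈ expo (Fin (n + 1)) (d j), aK j s I ∈ Y)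
    (hYg : ∀ t, ∀ I ∈ expo (Fin (n + 1)) (e t), gK t I ∈ Y) (hYs : s ∈ Y) (hYs' : s⁻¹ ∈ Y)
    {δf : κ[X]} (hδf0 : δf ≠ 0)
    (hδfE : ∀ b, ∀ y : K, IsIntegral κ[X] y → IsIntegral κ[X] (algebraMap κ[X] K δf * EK b y))
    (hδfY : ∀ y ∈ Y, IsIntegral κ[X] (algebraMap κ[X] K δf * y))
    {δi : Rinf κ} (hδi0 : δi ≠ 0)
    (hδiE : ∀ b, ∀ y : K, IsIntegral (Rinf κ) y →
      IsIntegral (Rinf κ) (algebraMap (Rinf κ) K δi * EK b y))
    (hδiY : ∀ y ∈ Y, IsIntegral (Rinf κ) (algebraMap (Rinf κ) K δi * y))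
    {x : Fin (n + 1) → L} (hx : x ≠ 0) {r' N : ℕ} (hN : r' + 1 + N = n + 1)
    (b : Fin r' → 𝓑)
    (hEa : ∀ b j s, ∀ I ∈ expo (Fin (n + 1)) (d j), EL b (algebraMap K L (aK j s I)) = 0)
    (hEg : ∀ b t, ∀ I ∈ expo (Fin (n + 1)) (e t), EL b (algebraMap K L (gK t I)) = 0)
    (hy0 : ∀ j, ∃ s, Fval (d j) (fun I => algebraMap K L (aK j s I)) x ≠ 0)
    (hG : ∀ t, Fval (e t) (fun I => algebraMap K L (gK t I)) x = 0)
    (hnull : ∀ (v : Valuation L ℤᵐ⁰) (δ : L), v δ ≤ 1 → v δ ≠ 0 →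
      (∀ y ∈ Y, v (δ * algebraMap K L y) ≤ 1) →
      ∀ z : Fin (n + 1) → L, (∀ k, v (z k) ≤ 1) → (∃ l, v (z l) = 1) →
      (∀ t, Fval (e t) (fun I => algebraMap K L (gK t I)) z = 0) → ∀ J : Finset ι,
      (∀ j ∈ J, ∀ s, v (Fval (d j) (fun I => algebraMap K L (aK j s I)) z) < v δ) →
      ∃ (s : Fin N → τ) (u : {j // j ∈ J} → σ) (c : Fin N ⊕ {j // j ∈ J} → Fin (n + 1)),
        v δ ≤ v (Matrix.of fun r r' =>
          Sum.elim (fun i => grad (e (s i)) (fun I => algebraMap K L (gK (s i) I)) z)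
            (fun j : {j // j ∈ J} => grad (d j.1) (fun I => algebraMap K L (aK j.1 (u j) I)) z)
            r (c r')).det)
    (hp : minorsM x (fun k => EL (b k)) ≠ 0) :
    height κ (minorsM x (fun k => EL (b k))) + ((∑ i, d i : ℕ) : ℤ) * height κ x ≤
      ((r' + 1 : ℕ) : ℤ) * height κ x +
        ∑ j, height κ (fun s => Fval (d j) (fun I => algebraMap K L (aK j s I)) x) +
        (ramDeg κ L K : ℤ) + ((truncSetG (κ := κ) d aK s x).ncard : ℤ) +
        ((r' + (N + Fintype.card ι + 1) * (r' + 1) + Fintype.card ι + 1 : ℕ) : ℤ) *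
          ((Module.finrank (RatFunc κ) L : ℤ) *
          (δf.natDegree - (δi : RatFunc κ).intDegree)) := by
  classical
  set a : ι → σ → Expo n → L := fun i s I => algebraMap K L (aK i s I) with ha
  have hcK : CharZero K := charZero_of_injective_algebraMap (algebraMap κ K).injective
  have hcL : CharZero L := charZero_of_injective_algebraMap (algebraMap κ L).injective
  have hc0 : CharZero (RatFunc κ) := charZero_RatFunc κ L
  have hf0 : algebraMap κ[X] L δf ≠ 0 := by
    rw [IsScalarTower.algebraMap_apply κ[X] (RatFunc κ) L]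
    refine (_root_.map_ne_zero _).mpr ?_
    rwa [ne_eq, FaithfulSMul.algebraMap_eq_zero_iff]
  have hi0 : algebraMap (Rinf κ) L δi ≠ 0 := by
    rw [IsScalarTower.algebraMap_apply (Rinf κ) (RatFunc κ) L]
    exact (_root_.map_ne_zero _).mpr fun h => hδi0 (Subtype.ext h)
  -- the value of the denominator
  let δv : Place κ L → ℤᵐ⁰ := fun v => if v.1 (algebraMap κ[X] L X) ≤ 1 then
    v.1 (algebraMap κ[X] L δf) else v.1 (algebraMap (Rinf κ) L δi)
  set p : (Option (Fin r') → Fin (n + 1)) → L := minorsM x (fun k => EL (b k)) with hpdef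
  have hy0' : ∀ j, (fun s => Fval (d j) (a j s) x) ≠ 0 := by
    intro j h
    obtain ⟨s, hs⟩ := hy0 j
    exact hs (congrFun h s)
  set M := r' + (N + Fintype.card ι + 1) * (r' + 1) + Fintype.card ι with hM
  have hnat : ∀ v : Place κ L, ∀ k : ℕ, k ≠ 0 → v.1 (k : L) = 1 := by
    intro v k hk
    have := v.2.2 (k : κ) (Nat.cast_ne_zero.mpr hk)
    rwa [map_natCast] at this
  have hresC : ∀ v : Place κ L, ∀ y, v.1 y ≤ 1 → ∃ c ∈ Set.range (algebraMap κ L),
      v.1 (y - c) < 1 := by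
    intro v y hy
    obtain ⟨c, hc⟩ := place_residue v hy
    exact ⟨_, ⟨c, rfl⟩, hc⟩
  have hloc : ∀ v : Place κ L, log (vmax v.1 p) +
        ((∑ i, d i : ℕ) : ℤ) * log (vmax v.1 x) +
        ((M + 1 : ℕ) : ℤ) * log (δv v) ≤
      ((r' + 1 : ℕ) : ℤ) * log (vmax v.1 x) + ∑ j, log (vmax v.1 (fun s => Fval (d j) (a j s) x)) +
        ((ramIdx K v.1 - 1 : ℕ) : ℤ) +
        (if v ∈ truncSetG (κ := κ) d aK s x then 1 else 0) := by
    intro v
    obtain ⟨s₀, hs₀⟩ := exists_ramIdx (K := K) v.1 v.2.1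
    have he₀ := one_le_ramIdx (K := K) v.1 v.2.1
    by_cases hX : v.1 (algebraMap κ[X] L X) ≤ 1
    · have hδv : δv v = v.1 (algebraMap κ[X] L δf) := if_pos hX
      have hδ0 : v.1 (algebraMap κ[X] L δf) ≠ 0 := (Valuation.ne_zero_iff _).mpr hf0
      have hYv : ∀ y ∈ Y, v.1 (algebraMap κ[X] L δf * algebraMap K L y) ≤ 1 := by
        intro y hy
        have h2 := integral_le_one v.1 (place_poly v hX) ((hδfY y hy).algebraMap (B := L))
        rwa [map_mul, ← IsScalarTower.algebraMap_apply] at h2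
      have h1 := place_ineqG (K₀ := RatFunc κ) v.1 v.2.1 (place_poly v hX) hextE hδ0
        hδfE (fun j s I hI => hYv _ (hYa j s I hI))
        (g := fun t I => algebraMap K L (gK t I)) (fun t I hI => hYv _ (hYg t I hI))
        (Set.range (algebraMap κ L)) (by
          rintro _ ⟨c, rfl⟩
          refine ⟨algebraMap κ K c, ?_, IsScalarTower.algebraMap_apply κ K L c⟩
          rw [IsScalarTower.algebraMap_apply κ κ[X] K]
          exact isIntegral_algebraMap) (hresC v) (hnat v) he₀ hs₀ hx hN b hEa hEg hy0 hG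
          (hnull v.1 _ (place_poly v hX δf) hδ0 hYv) hp
      have h3 := trunc_leG v.1 (place_poly v hX) hδ0 hs0 (hYv _ hYs) (hYv _ hYs')
        (∃ j, ∀ s, v.1 (Fval (d j) (a j s) x) < vmax v.1 x ^ d j)
      rw [hδv]
      have h4 : (if v ∈ truncSetG (κ := κ) d aK s x then 1 else 0 : ℤ) =
        (if v.1 (algebraMap K L s) = 1 ∧ (∃ j, ∀ s, v.1 (Fval (d j) (a j s) x) <
          vmax v.1 x ^ d j) then 1 else 0) := if_congr Iff.rfl rfl rfl
      rw [h4]
      rw [← hM] at h1
      push_cast at h1 h3 ⊢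
      linarith
    · have hδv : δv v = v.1 (algebraMap (Rinf κ) L δi) := if_neg hX
      have hδ0 : v.1 (algebraMap (Rinf κ) L δi) ≠ 0 := (Valuation.ne_zero_iff _).mpr hi0
      have hYv : ∀ y ∈ Y, v.1 (algebraMap (Rinf κ) L δi * algebraMap K L y) ≤ 1 := by
        intro y hy
        have h2 := integral_le_one v.1 (place_rinf v hX) ((hδiY y hy).algebraMap (B := L))
        rwa [map_mul, ← IsScalarTower.algebraMap_apply] at h2
      have h1 := place_ineqG (K₀ := RatFunc κ) v.1 v.2.1 (place_rinf v hX) hextE hδ0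
        hδiE (fun j s I hI => hYv _ (hYa j s I hI))
        (g := fun t I => algebraMap K L (gK t I)) (fun t I hI => hYv _ (hYg t I hI))
        (Set.range (algebraMap κ L)) (by
          rintro _ ⟨c, rfl⟩
          refine ⟨algebraMap κ K c, ?_, IsScalarTower.algebraMap_apply κ K L c⟩
          have hmem : algebraMap κ[X] (RatFunc κ) (C c) ∈ Rinf κ := by
            rw [mem_Rinf, RatFunc.intDegree_polynomial, natDegree_C]
            exact le_rfl
          have h5 : algebraMap κ K c = algebraMap (Rinf κ) K ⟨_, hmem⟩ := by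
            rw [IsScalarTower.algebraMap_apply (Rinf κ) (RatFunc κ) K]
            show _ = algebraMap (RatFunc κ) K (algebraMap κ[X] (RatFunc κ) (C c))
            rw [← IsScalarTower.algebraMap_apply κ[X] (RatFunc κ) K,
              IsScalarTower.algebraMap_apply κ κ[X] K]
            rfl
          rw [h5]
          exact isIntegral_algebraMap) (hresC v) (hnat v) he₀ hs₀ hx hN b hEa hEg hy0 hG
          (hnull v.1 _ (place_rinf v hX δi) hδ0 hYv) hp
      have h3 := trunc_leG v.1 (place_rinf v hX) hδ0 hs0 (hYv _ hYs) (hYv _ hYs')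
        (∃ j, ∀ s, v.1 (Fval (d j) (a j s) x) < vmax v.1 x ^ d j)
      rw [hδv]
      have h4 : (if v ∈ truncSetG (κ := κ) d aK s x then 1 else 0 : ℤ) =
        (if v.1 (algebraMap K L s) = 1 ∧ (∃ j, ∀ s, v.1 (Fval (d j) (a j s) x) <
          vmax v.1 x ^ d j) then 1 else 0) := if_congr Iff.rfl rfl rfl
      rw [h4]
      rw [← hM] at h1
      push_cast at h1 h3 ⊢
      linarith
  -- the finite set of places
  have htr : (truncSetG (κ := κ) d aK s x).Finite := by
    have hfin : ((⋃ j : ι, {v : Place κ L | vmax v.1 (fun s => Fval (d j) (a j s) x) ≠ 1}) ∪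
        {v : Place κ L | vmax v.1 x ≠ 1}).Finite :=
      Set.Finite.union (Set.finite_iUnion fun j => vmax_finite (hy0' j)) (vmax_finite hx)
    refine hfin.subset fun v hv => ?_
    obtain ⟨-, j, hlt⟩ := hv
    by_contra hcon
    simp only [Set.mem_union, Set.mem_iUnion, not_or, not_exists] at hcon
    obtain ⟨hc1, hc2⟩ := hcon
    have h1 : vmax v.1 (fun s => Fval (d j) (a j s) x) = 1 := by
      by_contra h2
      exact hc1 j h2
    have h2 : vmax v.1 x = 1 := by
      by_contra h3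
      exact hc2 h3
    simp only [h2, one_pow] at hlt
    have h3 : vmax v.1 (fun s => Fval (d j) (a j s) x) < 1 := by
      unfold vmax
      rw [Finset.sup_lt_iff (by exact zero_lt_one)]
      exact fun s _ => hlt s
    exact absurd h1 h3.ne
  let P : Finset (Place κ L) := (vmax_finite hp).toFinset ∪
    (vmax_finite hx).toFinset ∪ (Finset.univ.biUnion fun j => (vmax_finite (hy0' j)).toFinset) ∪
    (ramIdx_finite (κ := κ) (K := K) (L := L)).toFinset ∪ (place_finite hf0).toFinset ∪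
    (place_finite hi0).toFinset ∪ htr.toFinset
  have hP : ∀ v ∉ P, vmax v.1 x = 1 ∧ (∀ j, vmax v.1 (fun s => Fval (d j) (a j s) x) = 1) ∧
      ramIdx K v.1 = 1 ∧ v.1 (algebraMap κ[X] L δf) = 1 ∧ v.1 (algebraMap (Rinf κ) L δi) = 1 ∧
      v ∉ truncSetG (κ := κ) d aK s x ∧ vmax v.1 p = 1 := by
    intro v hv
    simp only [P, Finset.mem_union, Set.Finite.mem_toFinset, Finset.mem_biUnion, Finset.mem_univ,
      true_and, not_exists, not_or, Set.mem_ofPred_eq, not_not] at hv
    obtain ⟨⟨⟨⟨⟨⟨h0, h1⟩, h2⟩, h4⟩, h5⟩, h6⟩, h7⟩ := hv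
    exact ⟨h1, h2, h4, h5, h6, h7, h0⟩
  have hsum := Finset.sum_le_sum fun v (_ : v ∈ P) => hloc v
  simp only [Finset.sum_add_distrib, ← Finset.mul_sum] at hsum
  -- rewriting the sums
  have e1 : ∑ v ∈ P, ∑ j, log (vmax v.1 (fun s => Fval (d j) (a j s) x)) =
      ∑ j, height κ (fun s => Fval (d j) (a j s) x) := by
    rw [Finset.sum_comm]
    refine Finset.sum_congr rfl fun j _ => ?_
    symm
    refine finsum_eq_sum_of_support_subset _ fun v hv => ?_
    by_contra hvP
    apply hv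
    simp only
    rw [(hP v hvP).2.1 j, log_one]
  have e2 : ∑ v ∈ P, log (vmax v.1 x) = height κ x := by
    symm
    refine finsum_eq_sum_of_support_subset _ fun v hv => ?_
    by_contra hvP
    apply hv
    simp only
    rw [(hP v hvP).1, log_one]
  have e4 : ∑ v ∈ P, ((ramIdx K v.1 - 1 : ℕ) : ℤ) = (ramDeg κ L K : ℤ) := by
    rw [← Nat.cast_sum]
    congr 1
    symm
    refine finsum_eq_sum_of_support_subset _ fun v hv => ?_
    by_contra hvP
    apply hv
    simp only
    rw [(hP v hvP).2.2.1, Nat.sub_self]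
  have e5 : ∑ v ∈ P, (if v ∈ truncSetG (κ := κ) d aK s x then 1 else 0 : ℤ) =
      ((truncSetG (κ := κ) d aK s x).ncard : ℤ) := by
    rw [Finset.sum_boole]
    congr 1
    rw [Set.ncard_eq_toFinset_card _ htr]
    congr 1
    ext v
    simp only [Finset.mem_filter, Set.Finite.mem_toFinset]
    constructor
    · exact fun h => h.2
    · intro h
      refine ⟨?_, h⟩
      by_contra hvP
      exact (hP v hvP).2.2.2.2.2.1 h
  have e6 : ∑ v ∈ P, log (δv v) = - ((Module.finrank (RatFunc κ) L : ℤ) *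
          (δf.natDegree - (δi : RatFunc κ).intDegree)) := by
    rw [← sum_delta hδf0 hδi0 P (fun v hv => ⟨(hP v hv).2.2.2.1, (hP v hv).2.2.2.2.1⟩),
      Finset.sum_neg_distrib, neg_neg]
  have e7 : ∑ v ∈ P, log (vmax v.1 p) = height κ p := by
    symm
    refine finsum_eq_sum_of_support_subset _ fun v hv => ?_
    by_contra hvP
    apply hv
    simp only
    rw [(hP v hvP).2.2.2.2.2.2, log_one]
  rw [e1, e2, e4, e5, e6, e7] at hsum
  linarith

end CoreG

end Pool.Agent.Lib.MP_44a246_ntN
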