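import Mathlib
import Pool.Agent.Lib.MP_44a246_nt.Family
import Pool.Agent.Lib.MP_44a246_nt.Tangent

/-!
A full family of derivations of a function field vanishing on a given finite set, and the tangent
space of a point over the field generated by this set.
-/

namespace Pool.Agent.Lib.MP_44a246_ntN

open Pool.Agent.Lib.MP_e52354_nt Pool.Agent.Lib.MP_44a246_nt Polynomial

universe u v

section IntComb

theorem int_combG {R K : Type*} [CommRing R] [Field K] [Algebra R K] {δ : R} {e y : K}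
    {S : Type*} [Fintype S] (f g : S → K)
    (h0 : IsIntegral R (algebraMap R K δ * e))
    (hf : ∀ i, IsIntegral R (algebraMap R K δ * f i))
    (hg : ∀ i, IsIntegral R (algebraMap R K δ * g i))
    (hy : y = e - ∑ i, f i * g i) :
    IsIntegral R (algebraMap R K (δ * δ) * y) := by
  have h1 : algebraMap R K (δ * δ) * y = algebraMap R K δ * (algebraMap R K δ * e) -
      ∑ i, (algebraMap R K δ * f i) * (algebraMap R K δ * g i) := by
    rw [hy, mul_sub, Finset.mul_sum, map_mul]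
    congr 1
    · ring
    · exact Finset.sum_congr rfl fun I _ => by ring
  rw [h1]
  exact (isIntegral_algebraMap.mul h0).sub (IsIntegral.sum _ fun i _ => (hf i).mul (hg i))

end IntComb

section DataG

variable {k₀ : Type*} {κ : Type u} {K : Type v} [Field k₀] [CharZero k₀] [Field κ] [Field K]
  [Algebra k₀ κ] [Algebra κ K] [Algebra k₀ K] [IsScalarTower k₀ κ K]
  [Algebra κ[X] K] [IsScalarTower κ κ[X] K]
  [Algebra (RatFunc κ) K] [IsScalarTower κ[X] (RatFunc κ) K]
  [Algebra (Rinf κ) K] [IsScalarTower (Rinf κ) (RatFunc κ) K]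
  [FiniteDimensional (RatFunc κ) K]

open Classical in
theorem exists_dataG (ht : Transcendental κ (algebraMap κ[X] K X))
    (halg : Algebra.IsAlgebraic (IntermediateField.adjoin κ {algebraMap κ[X] K X}) K)
    (A Y : Finset K) :
    ∃ (B : Type u) (_ : DecidableEq B) (z : B → K) (Θ : Finset K)
      (EK : B → Derivation ℤ K K) (DK : Θ → Derivation ℤ K K) (e : B → Θ → K), Θ ⊆ A ∧
      (∀ b, ∀ y ∈ A, EK b y = 0) ∧
      (∀ b (c : k₀), EK b (algebraMap k₀ K c) = 0) ∧
      (∀ θ (c : k₀), DK θ (algebraMap k₀ K c) = 0) ∧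
      Algebra.IsAlgebraic (IntermediateField.adjoin k₀ (Set.range z)) K ∧
      (∀ θ θ' : Θ, DK θ θ' = if θ = θ' then 1 else 0) ∧
      (∀ b b', EK b (z b') + ∑ θ, e b θ * DK θ (z b') = if b = b' then 1 else 0) ∧
      (∃ δf : κ[X], δf ≠ 0 ∧
        (∀ b, ∀ y : K, IsIntegral κ[X] y → IsIntegral κ[X] (algebraMap κ[X] K δf * EK b y)) ∧
        (∀ y ∈ Y, IsIntegral κ[X] (algebraMap κ[X] K δf * y))) ∧
      (∃ δi : Rinf κ, δi ≠ 0 ∧
        (∀ b, ∀ y : K, IsIntegral (Rinf κ) y →
          IsIntegral (Rinf κ) (algebraMap (Rinf κ) K δi * EK b y)) ∧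
        (∀ y ∈ Y, IsIntegral (Rinf κ) (algebraMap (Rinf κ) K δi * y))) := by
  classical
  have hcK : CharZero K := charZero_of_injective_algebraMap (algebraMap k₀ K).injective
  -- a transcendence basis
  obtain ⟨S, hS⟩ := (AlgebraicIndependent.matroid k₀ K).exists_isBasis (A : Set K)
  obtain ⟨hSind, hSsub, hSalg⟩ := AlgebraicIndependent.matroid_isBasis_iff.mp hS
  obtain ⟨Θ, rfl⟩ : ∃ Θ : Finset K, (Θ : Set K) = S :=
    ⟨(A.finite_toSet.subset hSsub).toFinset, by simp⟩
  have hc : AlgebraicIndependent k₀ ((↑) : Θ → K) := hSind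
  obtain ⟨B, iB, z, E, D, h1, h2, h3, ⟨δf, hf0, hf1, hf2, hf3, hf4⟩, ⟨δi, hi0, hi1, hi2, hi3, hi4⟩⟩ :=
    exists_family (k₀ := k₀) ht halg hc Y
  let DK : Θ → Derivation ℤ K K := fun θ => derZ (D θ)
  let EK₀ : B → Derivation k₀ K K := fun b => E b - ∑ θ : Θ, E b (θ : K) • D θ
  let EK : B → Derivation ℤ K K := fun b => derZ (EK₀ b)
  have hEK : ∀ b y, EK b y = E b y - ∑ θ : Θ, E b (θ : K) * DK θ y := by
    intro b y
    show (Derivation.coeFnAddMonoidHom (E b - ∑ θ : Θ, E b (θ : K) • D θ)) y = _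
    rw [map_sub, map_sum, Pi.sub_apply, Finset.sum_apply]
    rfl
  have hDK3 : ∀ θ θ' : Θ, DK θ θ' = if θ = θ' then 1 else 0 := h3
  have hEΘ : ∀ b, ∀ y ∈ Θ, EK b y = 0 := by
    intro b y hy
    rw [hEK, sub_eq_zero, Finset.sum_eq_single (⟨y, hy⟩ : Θ)]
    · have := hDK3 ⟨y, hy⟩ ⟨y, hy⟩
      rw [if_pos rfl] at this
      rw [this, mul_one]
    · intro θ _ hθ
      have := hDK3 θ ⟨y, hy⟩
      rw [if_neg hθ] at this
      rw [this, mul_zero]
    · intro h; exact absurd (Finset.mem_univ _) h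
  refine ⟨B, iB, z, Θ, EK, DK, fun b θ => E b θ, by exact_mod_cast hSsub, ?_, ?_, ?_, h2, hDK3, ?_,
    ⟨δf * δf, mul_ne_zero hf0 hf0, ?_, ?_⟩, ⟨δi * δi, mul_ne_zero hi0 hi0, ?_, ?_⟩⟩
  · intro b y hy
    have h4 : IsAlgebraic (IntermediateField.adjoin k₀ (Θ : Set K)) y :=
      IntermediateField.isAlgebraic_adjoin_iff.mpr (hSalg y hy)
    exact der_eq_zero (EK₀ b) (Θ : Set K) (fun s hs => hEΘ b s hs) h4
  · intro b c
    exact Derivation.map_algebraMap (EK₀ b) c
  · intro θ c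
    exact Derivation.map_algebraMap (D θ) c
  · intro b b'
    rw [hEK, sub_add_cancel, h1]
  · intro b y hy
    exact int_combG (fun θ : Θ => E b θ) (fun θ => DK θ y) (hf1 b y hy) (fun θ => hf3 b θ)
      (fun θ => hf2 θ y hy) (hEK b y)
  · intro y hy
    rw [map_mul, mul_assoc]
    exact isIntegral_algebraMap.mul (hf4 _ hy)
  · intro b y hy
    exact int_combG (fun θ : Θ => E b θ) (fun θ => DK θ y) (hi1 b y hy) (fun θ => hi3 b θ)
      (fun θ => hi2 θ y hy) (hEK b y)
  · intro y hy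
    rw [map_mul, mul_assoc]
    exact isIntegral_algebraMap.mul (hi4 _ hy)

end DataG

section SpanG

variable {k₀ K L : Type*} [Field k₀] [CharZero k₀] [Field K] [Field L] [Algebra k₀ K]
  [Algebra K L] [Algebra k₀ L] [IsScalarTower k₀ K L] [Algebra.IsAlgebraic K L]

open Classical in
theorem spanX1_eq_tangentG {B : Type*} [DecidableEq B] {z : B → K}
    (hz : Algebra.IsAlgebraic (IntermediateField.adjoin k₀ (Set.range z)) K) {A Θ : Finset K}
    (hΘA : Θ ⊆ A) {D : Θ → Derivation ℤ L L} {E : B → Derivation ℤ L L}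
    (hD0 : ∀ θ (c : k₀), D θ (algebraMap k₀ L c) = 0)
    (hE0 : ∀ b (c : k₀), E b (algebraMap k₀ L c) = 0)
    (hD : ∀ θ θ' : Θ, D θ (algebraMap K L θ') = if θ = θ' then 1 else 0)
    (hE : ∀ b, ∀ y ∈ A, E b (algebraMap K L y) = 0) (e : B → Θ → L)
    (hF : ∀ b b', E b (algebraMap K L (z b')) + ∑ θ, e b θ * D θ (algebraMap K L (z b')) =
      if b = b' then 1 else 0) {n : ℕ} (x : Fin (n + 1) → L) :
    spanX1 E x = tangent (Set.range (algebraMap k₀ L) ∪ algebraMap K L '' (A : Set K)) x := by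
  classical
  -- the auxiliary derivations
  let F : B → Derivation ℤ L L := fun b => E b + ∑ θ, e b θ • D θ
  have hFy : ∀ b y, F b y = E b y + ∑ θ, e b θ * D θ y := by
    intro b y
    show (Derivation.coeFnAddMonoidHom (E b + ∑ θ, e b θ • D θ)) y = _
    rw [map_add, map_sum, Pi.add_apply, Finset.sum_apply]
    rfl
  have hFc : ∀ b (θ : Θ), F b (algebraMap K L θ) = e b θ := by
    intro b θ
    rw [hFy, hE b θ (hΘA θ.2), zero_add, Finset.sum_eq_single θ]
    · rw [hD θ θ, if_pos rfl, mul_one]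
    · intro θ' _ h
      rw [hD θ' θ, if_neg h, mul_zero]
    · intro h; exact absurd (Finset.mem_univ _) h
  have hF0 : ∀ b (c : k₀), F b (algebraMap k₀ L c) = 0 := by
    intro b c
    rw [hFy, hE0]
    simp [hD0]
  have hFz : ∀ b b', F b (algebraMap K L (z b')) = if b = b' then 1 else 0 := by
    intro b b'
    rw [hFy]
    exact hF b b'
  let Y : Finset L := Finset.univ.image x ∪ A.image (algebraMap K L)
  have hYx : ∀ k, x k ∈ Y := fun k =>
    Finset.mem_union_left _ (Finset.mem_image_of_mem _ (Finset.mem_univ k))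
  have hYa : ∀ y ∈ A, algebraMap K L y ∈ Y := fun y hy =>
    Finset.mem_union_right _ (Finset.mem_image_of_mem _ hy)
  apply le_antisymm
  · unfold spanX1
    rw [Submodule.span_le]
    rintro w (rfl | ⟨b, rfl⟩)
    · exact ⟨1, 0, fun a _ => rfl, fun k => by simp⟩
    · refine ⟨0, E b, ?_, fun k => by simp⟩
      rintro _ (⟨c, rfl⟩ | ⟨y, hy, rfl⟩)
      · exact hE0 b c
      · exact hE b y hy
  · rintro w ⟨c, G, hG, hw⟩
    obtain ⟨s, hs⟩ := density hz F hF0 hFz G (fun c => hG _ (Or.inl ⟨c, rfl⟩)) Y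
    have hcoef : ∀ θ : Θ, ∑ b ∈ s, G (algebraMap K L (z b)) * e b θ = 0 := by
      intro θ
      have h1 := hs _ (hYa θ (hΘA θ.2))
      rw [hG _ (Or.inr ⟨θ, hΘA θ.2, rfl⟩)] at h1
      rw [h1]
      exact Finset.sum_congr rfl fun b _ => by rw [hFc b θ]
    have h1 : w = c • x + ∑ b ∈ s, G (algebraMap K L (z b)) • (fun k => E b (x k)) := by
      funext k
      rw [hw k, hs _ (hYx k)]
      simp only [hFy, Pi.add_apply, Pi.smul_apply, smul_eq_mul, Finset.sum_apply, mul_add,
        Finset.sum_add_distrib]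
      have h2 : ∑ b ∈ s, G (algebraMap K L (z b)) * ∑ θ, e b θ * D θ (x k) = 0 := by
        simp only [Finset.mul_sum]
        rw [Finset.sum_comm]
        refine Finset.sum_eq_zero fun θ _ => ?_
        have : ∀ b ∈ s, G (algebraMap K L (z b)) * (e b θ * D θ (x k)) =
            (G (algebraMap K L (z b)) * e b θ) * D θ (x k) := fun b _ => by ring
        rw [Finset.sum_congr rfl this, ← Finset.sum_mul, hcoef θ, zero_mul]
      rw [h2, add_zero]
    rw [h1]
    exact Submodule.add_mem _ (Submodule.smul_mem _ _ (Submodule.subset_span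
      (Set.mem_insert _ _))) (Submodule.sum_mem _ fun b _ => Submodule.smul_mem _ _
      (Submodule.subset_span (Set.mem_insert_of_mem _ ⟨b, rfl⟩)))

end SpanG

end Pool.Agent.Lib.MP_44a246_ntN
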