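import Mathlib
import Pool.Agent.Lib.MP_44a246_nt.Defs
import Pool.Agent.Lib.MP_44a246_ntN.NullG

/-!
Definitions for the inequality at generic points of pairs.
-/

namespace Pool.Agent.Lib.MP_44a246_ntN

open MvPolynomial Pool.Agent.Lib.MP_44a246_nt

section

variable {K L : Type*} [Field K] [Field L] [Algebra K L] {n : ℕ} {τ ι σ : Type*}

/-- The tangent space at `x` of the cone defined by the polynomials `G t`. -/
def coneTangent (G : τ → MvPolynomial (Fin (n + 1)) K) (x : Fin (n + 1) → L) :
    Submodule L (Fin (n + 1) → L) where
  carrier := {w | ∀ t, ∑ k, grad (G t) x k * w k = 0}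
  add_mem' := by
    intro w w' h h' t
    simp only [Pi.add_apply, mul_add, Finset.sum_add_distrib, h t, h' t, add_zero]
  zero_mem' := fun t => by simp
  smul_mem' := by
    intro c w h t
    have : ∀ k, grad (G t) x k * (c • w) k = c * (grad (G t) x k * w k) := by
      intro k
      rw [Pi.smul_apply, smul_eq_mul]
      ring
    simp only [this]
    rw [← Finset.mul_sum, h t, mul_zero]

variable (κ : Type*) [Field κ] [Algebra κ K] [Algebra κ L]

/-- The truncated counting function of the subschemes `F i = 0`: the number of places `w` of `L`,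
not lying over the set `S` of places of `K`, such that for some `i` all the values `F i s` at `x`
are smaller than the maximal possible one. -/
noncomputable def countG (F : ι → σ → MvPolynomial (Fin (n + 1)) K) (d : ι → ℕ)
    (S : Set (Place κ K)) (x : Fin (n + 1) → L) : ℕ :=
  Set.ncard {w : Place κ L | (∀ v ∈ S, ¬ (w.1.comap (algebraMap K L)).IsEquiv v.1) ∧
    ∃ i, ∀ s, w.1 (aeval x (F i s)) < vmax w.1 x ^ d i}

/-- The height of `x` relative to the subscheme `D i` defined by the forms `F i s`, `s` varying, of
degree `d i`: the sum over the places of `- log (max_s v (F i s (x)) / vmax ^ (d i))`. -/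
noncomputable def divHeight (F : ι → σ → MvPolynomial (Fin (n + 1)) K) (d : ι → ℕ) [Fintype σ]
    (x : Fin (n + 1) → L) (i : ι) : ℤ :=
  d i * height κ x - height κ (fun s => aeval x (F i s))

/-- The field of definition: the field generated over `k₀` by the coefficients of all the
polynomials `G t` and `F i s`. -/
def defField (k₀ : Type*) [Field k₀] [Algebra k₀ K] (G : τ → MvPolynomial (Fin (n + 1)) K)
    (F : ι → σ → MvPolynomial (Fin (n + 1)) K) : IntermediateField k₀ K :=
  IntermediateField.adjoin k₀ ({y | ∃ t I, y = (G t).coeff I} ∪ {y | ∃ i s I, y = (F i s).coeff I})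

end

end Pool.Agent.Lib.MP_44a246_ntN
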