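import Mathlib
import Pool.Agent.Lib.MP_44a246_ntN.CoreG
import Pool.Agent.Lib.MP_44a246_ntN.DataG

/-!
The main inequality for smooth pairs, in terms of coefficient functions.
-/

namespace Pool.Agent.Lib.MP_44a246_ntN

open Pool.Agent.Lib.MP_e52354_nt Pool.Agent.Lib.MP_44a246_nt WithZero Polynomial

universe u v w

section MainG

variable {k₀ : Type*} {κ : Type u} {K : Type v} [Field k₀] [CharZero k₀] [Field κ]
  [IsAlgClosed κ] [CharZero κ] [Field K]
  [Algebra k₀ κ] [Algebra κ K] [Algebra k₀ K] [IsScalarTower k₀ κ K]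
  [Algebra κ[X] K] [IsScalarTower κ κ[X] K]
  [Algebra (RatFunc κ) K] [IsScalarTower κ[X] (RatFunc κ) K]
  [Algebra (Rinf κ) K] [IsScalarTower (Rinf κ) (RatFunc κ) K]
  [FiniteDimensional (RatFunc κ) K]

variable {n : ℕ} {ι τ σ : Type*} [Fintype ι] [DecidableEq ι] [Fintype σ]
variable {d : ι → ℕ} {aK : ι → σ → Expo n → K} {e : τ → ℕ} {gK : τ → Expo n → K}

theorem main_libG (ht : Transcendental κ (algebraMap κ[X] K X))
    (halg : Algebra.IsAlgebraic (IntermediateField.adjoin κ {algebraMap κ[X] K X}) K)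
    {N : ℕ} (A Y₀ : Finset K)
    (hAa : ∀ j s, ∀ I ∈ expo (Fin (n + 1)) (d j), aK j s I ∈ A)
    (hAg : ∀ t, ∀ I ∈ expo (Fin (n + 1)) (e t), gK t I ∈ A)
    (hnull : ∀ (L : Type w) [Field L] [Algebra K L] (v : Valuation L ℤᵐ⁰) (δ : L), v δ ≤ 1 →
      v δ ≠ 0 → (∀ y ∈ Y₀, v (δ * algebraMap K L y) ≤ 1) →
      ∀ z : Fin (n + 1) → L, (∀ k, v (z k) ≤ 1) → (∃ l, v (z l) = 1) →
      (∀ t, Fval (e t) (fun I => algebraMap K L (gK t I)) z = 0) → ∀ J : Finset ι,
      (∀ j ∈ J, ∀ s, v (Fval (d j) (fun I => algebraMap K L (aK j s I)) z) < v δ) →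
      ∃ (s : Fin N → τ) (u : {j // j ∈ J} → σ) (c : Fin N ⊕ {j // j ∈ J} → Fin (n + 1)),
        v δ ≤ v (Matrix.of fun r r' =>
          Sum.elim (fun i => grad (e (s i)) (fun I => algebraMap K L (gK (s i) I)) z)
            (fun j : {j // j ∈ J} => grad (d j.1) (fun I => algebraMap K L (aK j.1 (u j) I)) z)
            r (c r')).det)
    {s : K} (hs0 : s ≠ 0) :
    ∃ C : ℕ, ∀ (L : Type w) [Field L] [Algebra κ L] [Algebra κ[X] L] [IsScalarTower κ κ[X] L]
      [Algebra (RatFunc κ) L] [IsScalarTower κ[X] (RatFunc κ) L]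
      [Algebra (Rinf κ) L] [IsScalarTower (Rinf κ) (RatFunc κ) L]
      [Algebra K L] [IsScalarTower κ K L] [IsScalarTower κ[X] K L] [IsScalarTower (Rinf κ) K L]
      [IsScalarTower (RatFunc κ) K L] [FiniteDimensional K L] [Algebra k₀ L]
      [IsScalarTower k₀ K L] (x : Fin (n + 1) → L) (_ : x ≠ 0)
      (_ : ∀ j, ∃ s, Fval (d j) (fun I => algebraMap K L (aK j s I)) x ≠ 0)
      (_ : ∀ t, Fval (e t) (fun I => algebraMap K L (gK t I)) x = 0)
      (Θ : Submodule L (Fin (n + 1) → L))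
      (_ : Θ = tangent (Set.range (algebraMap k₀ L) ∪ algebraMap K L '' (A : Set K)) x)
      (_ : Module.finrank L Θ + N = n + 1),
      (((∑ i, d i : ℕ) : ℤ) - Module.finrank L Θ) * height κ x -
          ∑ j, height κ (fun s => Fval (d j) (fun I => algebraMap K L (aK j s I)) x) +
          subHeight κ Θ ≤
        ((truncSetG (κ := κ) d aK s x).ncard : ℤ) + (ramDeg κ L K : ℤ) +
          (C : ℤ) * (Module.finrank K L : ℤ) := by
  classical
  obtain ⟨B, iB, z, ΘK, EK, DK, e', hΘA, hEKA, hEK0, hDK0, hz, hDD, hzE,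
    ⟨δf, hδf0, hf1, hf2⟩, ⟨δi, hδi0, hi1, hi2⟩⟩ :=
    exists_dataG (k₀ := k₀) ht halg A (A ∪ Y₀ ∪ {s, s⁻¹})
  refine ⟨((n + (N + Fintype.card ι + 1) * (n + 1) + Fintype.card ι + 1 : ℕ) : ℤ).toNat *
    ((Module.finrank (RatFunc κ) K : ℤ) *
    (δf.natDegree - (δi : RatFunc κ).intDegree)).toNat, ?_⟩
  intro L _ _ _ _ _ _ _ _ _ _ _ _ _ _ _ _ x hx hy0 hG Θ hΘ hN
  have hcK : CharZero K := charZero_of_injective_algebraMap (algebraMap κ K).injective
  have : FiniteDimensional (RatFunc κ) L := FiniteDimensional.trans (RatFunc κ) K L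
  choose DL hDL using fun θ => exists_extension (K := K) (L := L) (DK θ)
  choose EL hEL using fun b => exists_extension (K := K) (L := L) (EK b)
  have hDL0 : ∀ θ (c : k₀), DL θ (algebraMap k₀ L c) = 0 := by
    intro θ c
    rw [IsScalarTower.algebraMap_apply k₀ K L, hDL, hDK0, map_zero]
  have hEL0 : ∀ b (c : k₀), EL b (algebraMap k₀ L c) = 0 := by
    intro b c
    rw [IsScalarTower.algebraMap_apply k₀ K L, hEL, hEK0, map_zero]
  have hELA : ∀ b, ∀ y ∈ A, EL b (algebraMap K L y) = 0 := by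
    intro b y hy
    rw [hEL, hEKA b y hy, map_zero]
  have hT1 := spanX1_eq_tangentG (k₀ := k₀) (K := K) (L := L) (n := n) hz hΘA hDL0 hEL0
    (by
      intro θ θ'
      rw [hDL, hDD θ θ']
      split_ifs <;> simp) hELA (fun b θ => algebraMap K L (e' b θ)) (by
      intro b b'
      rw [hEL]
      simp only [hDL, ← map_mul, ← map_sum, ← map_add]
      rw [hzE b b']
      split_ifs <;> simp) x
  rw [← hΘ] at hT1
  -- a basis of the tangent space
  obtain ⟨r', Z, hZ, hli, hsp⟩ := exists_ext_family (M := L) (fun _ : Unit => x)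
    (LinearIndependent.of_subsingleton () hx) {w | ∃ b, w = fun k => EL b (x k)}
  choose b hb using hZ
  have hspΘ : Submodule.span L (Set.range (Sum.elim (fun _ : Unit => x) Z)) = Θ := by
    rw [hsp, ← hT1]
    unfold spanX1
    congr 1
    ext w
    simp only [Set.range_const, Set.singleton_union]
  let eq : Option (Fin r') ≃ Unit ⊕ Fin r' := (Equiv.optionEquivSumPUnit (Fin r')).trans
    (Equiv.sumComm _ _)
  have heqn : eq none = Sum.inl () := rfl
  have heqs : ∀ k, eq (some k) = Sum.inr k := fun k => rfl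
  let rows : Option (Fin r') → Fin (n + 1) → L := fun ρ => Sum.elim (fun _ : Unit => x) Z (eq ρ)
  have hrows : LinearIndependent L rows := hli.comp eq eq.injective
  have hrowsΘ : ∀ ρ, rows ρ ∈ Θ := by
    intro ρ
    rw [← hspΘ]
    exact Submodule.subset_span ⟨eq ρ, rfl⟩
  let bas₀ : Option (Fin r') → Θ := fun ρ => ⟨rows ρ, hrowsΘ ρ⟩
  have hbas₀ : LinearIndependent L bas₀ := by
    refine LinearIndependent.of_comp Θ.subtype ?_
    exact hrows
  have hspan₀ : ⊤ ≤ Submodule.span L (Set.range bas₀) := by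
    rintro ⟨w, hw⟩ -
    have hw' := hw
    rw [← hspΘ, Submodule.mem_span_range_iff_exists_fun] at hw'
    rw [Submodule.mem_span_range_iff_exists_fun]
    obtain ⟨c, hc⟩ := hw'
    refine ⟨fun ρ => c (eq ρ), Subtype.ext ?_⟩
    rw [Submodule.coe_sum]
    refine Eq.trans ?_ hc
    exact Equiv.sum_comp eq (fun k => c k • Sum.elim (fun _ : Unit => x) Z k)
  let bas : Module.Basis (Option (Fin r')) L Θ := Module.Basis.mk hbas₀ hspan₀
  have hbas : ∀ ρ, (bas ρ : Fin (n + 1) → L) = rows ρ := by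
    intro ρ
    simp only [bas, Module.Basis.mk_apply]
    rfl
  have hr : r' + 1 = Module.finrank L Θ := by
    rw [Module.finrank_eq_card_basis bas, Fintype.card_option, Fintype.card_fin]
  -- the Pluecker vector
  have hrowsM : ∀ ρ k, rowsM x (fun k => EL (b k)) ρ k = (bas ρ : Fin (n + 1) → L) k := by
    intro ρ k
    rw [hbas]
    rcases ρ with _ | ρ
    · rfl
    · show EL (b ρ) (x k) = Z ρ k
      rw [hb ρ]
  have hpeq : minorsM x (fun k => EL (b k)) =
      fun A => (Matrix.of fun i j => (bas i : Fin (n + 1) → L) (A j)).det := by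
    funext A
    unfold minorsM
    congr 1
    ext i j
    simp only [Matrix.of_apply, hrowsM]
  have hp : (fun A : Option (Fin r') → Fin (n + 1) =>
      (Matrix.of fun i j => (bas i : Fin (n + 1) → L) (A j)).det) ≠ 0 := by
    let ef : Option (Fin r') ≃ Fin (r' + 1) := Fintype.equivFinOfCardEq (by simp)
    obtain ⟨A, hA⟩ := exists_minor_ne (W := Θ) (fun i : Fin (r' + 1) => rows (ef.symm i))
      (hrows.comp ef.symm ef.symm.injective)
    intro h0
    apply hA
    have h1 := congrFun h0 (fun ρ => A (ef ρ))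
    have h2 : (Matrix.of fun i j => (bas i : Fin (n + 1) → L) (A (ef j))) =
        Matrix.reindex ef.symm ef.symm (Matrix.of fun i j => rows (ef.symm i) (A j)) := by
      ext i j
      simp only [Matrix.reindex_apply, Matrix.submatrix_apply, Matrix.of_apply, hbas,
        Equiv.symm_symm, Equiv.symm_apply_apply]
    rw [h2, Matrix.det_reindex_self] at h1
    exact h1
  have h1 := coreG (κ := κ) (aK := aK) (gK := gK) hEL hs0 (A ∪ Y₀ ∪ {s, s⁻¹})
    (fun j s I hI => Finset.mem_union_left _ (Finset.mem_union_left _ (hAa j s I hI)))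
    (fun t I hI => Finset.mem_union_left _ (Finset.mem_union_left _ (hAg t I hI)))
    (Finset.mem_union_right _ (by simp)) (Finset.mem_union_right _ (by simp))
    hδf0 hf1 hf2 hδi0 hi1 hi2 hx (N := N) (by omega) b
    (fun b j s I hI => hELA b _ (hAa j s I hI)) (fun b t I hI => hELA b _ (hAg t I hI)) hy0 hG
    (fun v δ hδ hδ0 hY => hnull L v δ hδ hδ0
      (fun y hy => hY y (Finset.mem_union_left _ (Finset.mem_union_right _ hy))))
    (by rw [hpeq]; exact hp)
  rw [hpeq, ← subHeight_eq bas hp] at h1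
  have h7 : (Module.finrank (RatFunc κ) L : ℤ) =
      (Module.finrank (RatFunc κ) K : ℤ) * Module.finrank K L := by
    rw [← Module.finrank_mul_finrank (RatFunc κ) K L]
    push_cast
    rfl
  have h8 : (δi : RatFunc κ).intDegree ≤ 0 := (mem_Rinf κ).mp δi.2
  set D : ℤ := (Module.finrank (RatFunc κ) K : ℤ) *
    (δf.natDegree - (δi : RatFunc κ).intDegree) with hD
  have hD0 : 0 ≤ D := by
    refine mul_nonneg (Int.natCast_nonneg _) ?_
    have : (0 : ℤ) ≤ δf.natDegree := Int.natCast_nonneg _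
    linarith
  set c₁ : ℕ := r' + (N + Fintype.card ι + 1) * (r' + 1) + Fintype.card ι + 1 with hc₁
  set c₂ : ℕ := n + (N + Fintype.card ι + 1) * (n + 1) + Fintype.card ι + 1 with hc₂
  have hc : c₁ ≤ c₂ := by
    have h10 : r' ≤ n := by omega
    have h11 : (N + Fintype.card ι + 1) * (r' + 1) ≤ (N + Fintype.card ι + 1) * (n + 1) :=
      Nat.mul_le_mul le_rfl (by omega)
    omega
  have h9 : ((c₁ : ℕ) : ℤ) * ((Module.finrank (RatFunc κ) L : ℤ) *
          (δf.natDegree - (δi : RatFunc κ).intDegree)) =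
      ((c₁ : ℕ) : ℤ) * (D * Module.finrank K L) := by
    rw [h7, hD]; ring
  have h11 : ((c₁ : ℕ) : ℤ) * (D * Module.finrank K L) ≤
      ((c₂ : ℕ) : ℤ) * (D * Module.finrank K L) := by
    refine mul_le_mul_of_nonneg_right ?_ (mul_nonneg hD0 (Int.natCast_nonneg _))
    exact_mod_cast hc
  have h12 : ((((c₂ : ℕ) : ℤ).toNat * D.toNat : ℕ) : ℤ) *
      (Module.finrank K L : ℤ) = ((c₂ : ℕ) : ℤ) * (D * Module.finrank K L) := by
    rw [Nat.cast_mul, Int.toNat_of_nonneg hD0, Int.toNat_natCast]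
    ring
  rw [h9] at h1
  rw [h12, ← hr]
  push_cast at h1 h11 ⊢
  linarith

end MainG

end Pool.Agent.Lib.MP_44a246_ntN
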