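import Mathlib
import Pool.Agent.Lib.MP_44a246_nt.PolyMain2
import Pool.Agent.Lib.MP_44a246_ntN.DefsG
import Pool.Agent.Lib.MP_44a246_ntN.GenericG
import Pool.Agent.Lib.MP_44a246_ntN.MainG

/-!
The main inequality at generic points of pairs, for polynomials.
-/

namespace Pool.Agent.Lib.MP_44a246_ntN

open Pool.Agent.Lib.MP_44a246_nt WithZero
open Pool.Agent.Lib.MP_e52354_nt (expo mem_expo mon Fval Rinf mem_Rinf)

universe u v w

section Poly

variable {n : ℕ} {L K : Type*} [Field L] [Field K] [Algebra K L]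

theorem degree_of_coeff {d : ℕ} {F : MvPolynomial (Fin (n + 1)) K} (hF : F.IsHomogeneous d)
    {I : Fin (n + 1) →₀ ℕ} (h : F.coeff I ≠ 0) : I ∈ expo (Fin (n + 1)) d := by
  rw [mem_expo]
  have h4 := hF h
  rw [← h4, Finsupp.degree_eq_weight_one]
  rfl

theorem grad_eq {d : ℕ} (F : MvPolynomial (Fin (n + 1)) K)
    (hF : F.IsHomogeneous d) (p : Fin (n + 1) → L) :
    grad F p = Pool.Agent.Lib.MP_e52354_nt.grad d (fun I => algebraMap K L (F.coeff I)) p := by
  funext k
  unfold grad Pool.Agent.Lib.MP_e52354_nt.grad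
  conv_lhs => rw [MvPolynomial.as_sum F]
  rw [map_sum, map_sum]
  have h1 : ∀ I ∈ F.support, MvPolynomial.aeval p (MvPolynomial.pderiv k
      (MvPolynomial.monomial I (F.coeff I))) = algebraMap K L (F.coeff I) * (I k : L) *
      mon p (I - Finsupp.single k 1) := by
    intro I _
    rw [MvPolynomial.pderiv_monomial, MvPolynomial.aeval_monomial, map_mul, map_natCast]
    congr 1
    unfold mon
    rw [Finsupp.prod_fintype _ _ (fun i => pow_zero _)]
  rw [Finset.sum_congr rfl h1]
  apply Finset.sum_subset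
  · intro I hI
    exact degree_of_coeff hF (MvPolynomial.mem_support_iff.mp hI)
  · intro I _ hI
    rw [MvPolynomial.notMem_support_iff.mp hI, map_zero, zero_mul, zero_mul]

end Poly

section Tangent

variable {n : ℕ} {L K : Type*} [Field L] [Field K] [Algebra K L] {τ ι σ : Type*}

theorem tangent_le_cone {A : Set L} {G : τ → MvPolynomial (Fin (n + 1)) K} {e : τ → ℕ}
    (hG : ∀ t, (G t).IsHomogeneous (e t)) (hA : ∀ t I, algebraMap K L ((G t).coeff I) ∈ A)
    {x : Fin (n + 1) → L} (hx : ∀ t, MvPolynomial.aeval x (G t) = 0) :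
    tangent A x ≤ coneTangent G x := by
  rintro w ⟨c, E, hE, hw⟩ t
  have h0 : Fval (e t) (fun I => algebraMap K L ((G t).coeff I)) x = 0 := by
    rw [← aeval_eq_Fval (G t) (hG t) x]; exact hx t
  simp only [hw, mul_add, Finset.sum_add_distrib, grad_eq (G t) (hG t) x]
  have h1 := sum_grad_point (e t) (fun I => algebraMap K L ((G t).coeff I)) x
  have h2 := sum_grad_der (e t) (fun I => algebraMap K L ((G t).coeff I)) E
    (fun I _ => hE _ (hA t I)) x
  rw [h0, mul_zero] at h1
  rw [h0, map_zero] at h2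
  rw [h2, add_zero]
  have h3 : ∀ k, Pool.Agent.Lib.MP_e52354_nt.grad (e t)
      (fun I => algebraMap K L ((G t).coeff I)) x k * (c * x k) =
      c * (Pool.Agent.Lib.MP_e52354_nt.grad (e t)
      (fun I => algebraMap K L ((G t).coeff I)) x k * x k) := fun k => by ring
  simp only [h3]
  rw [← Finset.mul_sum, h1, mul_zero]

theorem finrank_cone {G : τ → MvPolynomial (Fin (n + 1)) K} {x : Fin (n + 1) → L} {N : ℕ}
    (s : Fin N → τ) (hs : LinearIndependent L (fun j => grad (G (s j)) x)) :
    Module.finrank L (coneTangent G x) + N ≤ n + 1 := by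
  let M : Matrix (Fin N) (Fin (n + 1)) L := Matrix.of fun j k => grad (G (s j)) x k
  have h1 : M.rank = N := by
    have := LinearIndependent.rank_matrix (M := M) hs
    rwa [Fintype.card_fin] at this
  have h2 : coneTangent G x ≤ LinearMap.ker M.mulVecLin := by
    intro w hw
    rw [LinearMap.mem_ker]
    funext j
    exact hw (s j)
  have h3 := Submodule.finrank_mono h2
  have h4 := M.mulVecLin.finrank_range_add_finrank_ker
  rw [Module.finrank_fintype_fun_eq_card, Fintype.card_fin] at h4
  have h5 : Module.finrank L (LinearMap.range M.mulVecLin) = N := h1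
  omega

theorem Transversal.exists_rows {G : τ → MvPolynomial (Fin (n + 1)) K}
    {F : ι → σ → MvPolynomial (Fin (n + 1)) K} {N : ℕ} (hT : Transversal G F N)
    [Algebra.IsAlgebraic K L] {x : Fin (n + 1) → L} (hx : x ≠ 0)
    (hGx : ∀ t, MvPolynomial.aeval x (G t) = 0) :
    ∃ s : Fin N → τ, LinearIndependent L (fun j => grad (G (s j)) x) := by
  let f : L →ₐ[K] AlgebraicClosure K := IsAlgClosed.lift
  have hf : ∀ P : MvPolynomial (Fin (n + 1)) K, MvPolynomial.aeval (fun k => f (x k)) P =
      f (MvPolynomial.aeval x P) := by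
    intro P
    rw [← MvPolynomial.comp_aeval_apply]
  obtain ⟨s, c, hs⟩ := hT (fun k => f (x k)) (by
    intro h
    apply hx
    funext k
    have := congrFun h k
    simp only [Pi.zero_apply, map_eq_zero] at this
    exact this) (fun t => by rw [hf, hGx, map_zero])
  refine ⟨s, ?_⟩
  have h1 : LinearIndependent (AlgebraicClosure K) (fun j => grad (G (s j)) (fun k => f (x k))) :=
    hs.comp Sum.inl Sum.inl_injective
  rw [Fintype.linearIndependent_iff] at h1 ⊢
  intro g hg j
  have h2 := h1 (fun j => f (g j)) (by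
    funext k
    have h3 := congrArg f (congrFun hg k)
    rw [Finset.sum_apply] at h3 ⊢
    simp only [Pi.smul_apply, smul_eq_mul, map_sum, map_mul, Pi.zero_apply, map_zero] at h3 ⊢
    rw [← h3]
    refine Finset.sum_congr rfl fun j _ => ?_
    unfold grad
    rw [hf]) j
  simpa using h2

end Tangent

section Main

variable {k₀ : Type*} {κ : Type u} {K : Type v} [Field k₀] [CharZero k₀] [Field κ]
  [IsAlgClosed κ] [CharZero κ] [Field K]
  [Algebra k₀ κ] [Algebra κ K] [Algebra k₀ K] [IsScalarTower k₀ κ K]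

variable {n : ℕ} {τ ι σ : Type*} [Finite τ] [Fintype ι] [Fintype σ]

theorem poly_mainG [Algebra (Polynomial κ) K] [IsScalarTower κ (Polynomial κ) K]
    [Algebra (RatFunc κ) K] [IsScalarTower (Polynomial κ) (RatFunc κ) K]
    [Algebra (Rinf κ) K] [IsScalarTower (Rinf κ) (RatFunc κ) K]
    [FiniteDimensional (RatFunc κ) K]
    (ht : Transcendental κ (algebraMap (Polynomial κ) K Polynomial.X))
    (halg : Algebra.IsAlgebraic
      (IntermediateField.adjoin κ {algebraMap (Polynomial κ) K Polynomial.X}) K)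
    {e : τ → ℕ} (G : τ → MvPolynomial (Fin (n + 1)) K) (hG : ∀ t, (G t).IsHomogeneous (e t))
    {d : ι → ℕ} (F : ι → σ → MvPolynomial (Fin (n + 1)) K)
    (hF : ∀ i s, (F i s).IsHomogeneous (d i)) {N : ℕ} (hT : Transversal G F N)
    (S : Set (Place κ K)) (hS : S.Finite) :
    ∃ C : ℕ, ∀ (L : Type w) [Field L] [Algebra K L] [FiniteDimensional K L] [Algebra κ L]
      [IsScalarTower κ K L] (x : Fin (n + 1) → L), x ≠ 0 →
      (∀ t, MvPolynomial.aeval x (G t) = 0) → (∀ i, ∃ s, MvPolynomial.aeval x (F i s) ≠ 0) →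
      ((n - N : ℕ) : Cardinal) ≤
        Algebra.trdeg (defField k₀ G F) (pointField (defField k₀ G F) x) →
      ∑ i, divHeight κ F d x i + ((N : ℤ) - n - 1) * height κ x + subHeight κ (coneTangent G x) ≤
        countG κ F d S x + ramDeg κ L K + C * Module.finrank K L := by
  classical
  have := Fintype.ofFinite τ
  obtain ⟨s, hs0, hs⟩ := exists_nonunit S hS
  obtain ⟨Y₀, hY₀⟩ := null_local.{v, _, _, _, w} G F hT
  let A : Finset K := (Finset.univ.biUnion fun t => (expo (Fin (n + 1)) (e t)).image
      fun I => (G t).coeff I) ∪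
    (Finset.univ.biUnion fun j => Finset.univ.biUnion fun s => (expo (Fin (n + 1)) (d j)).image
      fun I => (F j s).coeff I)
  have hAg : ∀ t, ∀ I ∈ expo (Fin (n + 1)) (e t), (G t).coeff I ∈ A := fun t I hI =>
    Finset.mem_union_left _ (Finset.mem_biUnion.mpr ⟨t, Finset.mem_univ _,
      Finset.mem_image_of_mem _ hI⟩)
  have hAa : ∀ j s, ∀ I ∈ expo (Fin (n + 1)) (d j), (F j s).coeff I ∈ A := fun j s I hI =>
    Finset.mem_union_right _ (Finset.mem_biUnion.mpr ⟨j, Finset.mem_univ _,
      Finset.mem_biUnion.mpr ⟨s, Finset.mem_univ _, Finset.mem_image_of_mem _ hI⟩⟩)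
  obtain ⟨C, hC⟩ := main_libG.{u, v, w} (k₀ := k₀) (κ := κ) (K := K) (n := n) (d := d)
    (aK := fun i s I => (F i s).coeff I) (e := e) (gK := fun t I => (G t).coeff I) (N := N)
    ht halg A Y₀ hAa hAg (by
      intro L _ _ v δ hδ1 hδ0 hY z hz hzl hGz J hJ
      obtain ⟨s', u', c', h⟩ := hY₀ L v δ hδ1 hδ0 hY z hz hzl (fun t => by
        rw [aeval_eq_Fval (G t) (hG t) z]; exact hGz t) J (fun j hj s => by
        rw [aeval_eq_Fval (F j s) (hF j s) z]; exact hJ j hj s)
      refine ⟨s', u', c', ?_⟩
      refine h.trans (le_of_eq (congrArg v (congrArg Matrix.det ?_)))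
      ext r r'
      rcases r with r | r
      · simp only [Matrix.of_apply, Sum.elim_inl]
        rw [grad_eq (G (s' r)) (hG (s' r)) z]
      · simp only [Matrix.of_apply, Sum.elim_inr]
        rw [grad_eq (F r.1 (u' r)) (hF r.1 (u' r)) z]) hs0
  refine ⟨C, ?_⟩
  intro L _ _ _ _ _ x hx hGx hFx htr
  let iX : Algebra (Polynomial κ) L :=
    ((algebraMap K L).comp (algebraMap (Polynomial κ) K)).toAlgebra
  let iK : Algebra (RatFunc κ) L := ((algebraMap K L).comp (algebraMap (RatFunc κ) K)).toAlgebra
  let iR : Algebra (Rinf κ) L := ((algebraMap K L).comp (algebraMap (Rinf κ) K)).toAlgebra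
  let i0 : Algebra k₀ L := ((algebraMap K L).comp (algebraMap k₀ K)).toAlgebra
  have t0 : IsScalarTower k₀ K L := IsScalarTower.of_algebraMap_eq' rfl
  have t1 : IsScalarTower (Polynomial κ) K L := IsScalarTower.of_algebraMap_eq' rfl
  have t2 : IsScalarTower (RatFunc κ) K L := IsScalarTower.of_algebraMap_eq' rfl
  have t3 : IsScalarTower (Rinf κ) K L := IsScalarTower.of_algebraMap_eq' rfl
  have t4 : IsScalarTower κ (Polynomial κ) L := IsScalarTower.of_algebraMap_eq fun u => by
    rw [IsScalarTower.algebraMap_apply κ K L, IsScalarTower.algebraMap_apply κ (Polynomial κ) K]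
    rfl
  have t5 : IsScalarTower (Polynomial κ) (RatFunc κ) L := IsScalarTower.of_algebraMap_eq fun u => by
    rw [IsScalarTower.algebraMap_apply (Polynomial κ) K L,
      IsScalarTower.algebraMap_apply (Polynomial κ) (RatFunc κ) K]
    rfl
  have t6 : IsScalarTower (Rinf κ) (RatFunc κ) L := IsScalarTower.of_algebraMap_eq fun u => by
    rw [IsScalarTower.algebraMap_apply (Rinf κ) K L,
      IsScalarTower.algebraMap_apply (Rinf κ) (RatFunc κ) K]
    rfl
  have hfin : FiniteDimensional (RatFunc κ) L := FiniteDimensional.trans (RatFunc κ) K L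
  have hFv : ∀ i s, Fval (d i) (fun I => algebraMap K L ((F i s).coeff I)) x =
      MvPolynomial.aeval x (F i s) := fun i s => (aeval_eq_Fval (F i s) (hF i s) x).symm
  -- the tangent space
  set k₁ := defField k₀ G F with hk₁
  have hck₁ : CharZero k₁ := charZero_of_injective_algebraMap (algebraMap k₀ k₁).injective
  let Θ := tangent (Set.range (algebraMap k₀ L) ∪ algebraMap K L '' (A : Set K)) x
  have hΘ₁ : tangent (Set.range (algebraMap k₁ L)) x = Θ := by
    refine tangent_congr fun E => ?_
    constructor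
    · intro h y hy
      rcases hy with ⟨c, rfl⟩ | ⟨y, hy, rfl⟩
      · refine h _ ⟨algebraMap k₀ k₁ c, ?_⟩
        exact (IsScalarTower.algebraMap_apply k₀ K L c).symm
      · have hy' : y ∈ k₁ := by
          rw [hk₁]
          apply IntermediateField.subset_adjoin
          simp only [A, Finset.coe_union, Finset.coe_biUnion, Finset.coe_image] at hy
          rcases hy with hy | hy
          · simp only [Set.mem_iUnion, Set.mem_image] at hy
            obtain ⟨t, -, I, -, rfl⟩ := hy
            exact Or.inl ⟨t, I, rfl⟩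
          · simp only [Set.mem_iUnion, Set.mem_image] at hy
            obtain ⟨j, -, s, -, I, -, rfl⟩ := hy
            exact Or.inr ⟨j, s, I, rfl⟩
        exact h _ ⟨⟨y, hy'⟩, rfl⟩
    · intro h y hy
      obtain ⟨⟨c, hc⟩, rfl⟩ := hy
      have h0 : ∀ c : k₀, E (algebraMap K L (algebraMap k₀ K c)) = 0 := fun c =>
        h _ (Or.inl ⟨c, rfl⟩)
      show E (algebraMap K L c) = 0
      rw [hk₁] at hc
      induction hc using IntermediateField.adjoin_induction with
      | mem y hy =>
        rcases hy with ⟨t, I, rfl⟩ | ⟨i, s', I, rfl⟩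
        · by_cases hI : (G t).coeff I = 0
          · rw [hI, map_zero, map_zero]
          · exact h _ (Or.inr ⟨_, hAg t I (degree_of_coeff (hG t) hI), rfl⟩)
        · by_cases hI : (F i s').coeff I = 0
          · rw [hI, map_zero, map_zero]
          · exact h _ (Or.inr ⟨_, hAa i s' I (degree_of_coeff (hF i s') hI), rfl⟩)
      | algebraMap c => exact h0 c
      | add x y _ _ hx hy => rw [map_add, map_add, hx, hy, add_zero]
      | inv x _ hx =>
        by_cases h0 : x = 0
        · rw [h0, inv_zero, map_zero, map_zero]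
        · have hne : algebraMap K L x ≠ 0 := (_root_.map_ne_zero _).mpr h0
          have h1 : E (algebraMap K L x * (algebraMap K L x)⁻¹) = 0 := by
            rw [mul_inv_cancel₀ hne, Derivation.map_one_eq_zero]
          rw [Derivation.leibniz, hx, smul_zero, add_zero] at h1
          rw [map_inv₀]
          exact (smul_eq_zero.mp h1).resolve_left hne
      | mul x y _ _ hx hy =>
        rw [map_mul, Derivation.leibniz, hx, hy, smul_zero, smul_zero, add_zero]
  have hle : Θ ≤ coneTangent G x := by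
    rw [← hΘ₁]
    refine tangent_le_cone hG (fun t I => ?_) hGx
    refine ⟨⟨(G t).coeff I, ?_⟩, rfl⟩
    rw [hk₁]
    exact IntermediateField.subset_adjoin _ _ (Or.inl ⟨t, I, rfl⟩)
  obtain ⟨s', hs'⟩ := hT.exists_rows (L := L) hx hGx
  have h1 := finrank_cone s' hs'
  have h2 : n - N + 1 ≤ Module.finrank L Θ := by
    rw [← hΘ₁]
    exact le_finrank_tangent hx htr
  have h3 : Module.finrank L Θ ≤ Module.finrank L (coneTangent G x) := Submodule.finrank_mono hle
  have h4 : Module.finrank L Θ + N = n + 1 := by omega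
  have hΘeq : Θ = coneTangent G x := Submodule.eq_of_le_of_finrank_le hle (by omega)
  have h5 := hC L x hx (fun j => by
    obtain ⟨s, hs⟩ := hFx j
    exact ⟨s, by rw [hFv]; exact hs⟩) (fun t => by
    rw [← aeval_eq_Fval (G t) (hG t) x]; exact hGx t) Θ rfl h4
  -- comparison of the counting functions
  have hy0 : ∀ j, (fun s => MvPolynomial.aeval x (F j s)) ≠ 0 := by
    intro j h
    obtain ⟨s, hs⟩ := hFx j
    exact hs (congrFun h s)
  have htr : {w : Place κ L | (∀ v ∈ S, ¬ (w.1.comap (algebraMap K L)).IsEquiv v.1) ∧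
      ∃ i, ∀ s, w.1 (MvPolynomial.aeval x (F i s)) < vmax w.1 x ^ d i}.Finite := by
    have hfin : ((⋃ j : ι, {v : Place κ L | vmax v.1 (fun s => MvPolynomial.aeval x (F j s)) ≠ 1}) ∪
        {v : Place κ L | vmax v.1 x ≠ 1}).Finite :=
      Set.Finite.union (Set.finite_iUnion fun j => vmax_finite (hy0 j)) (vmax_finite hx)
    refine hfin.subset fun v hv => ?_
    obtain ⟨-, j, hlt⟩ := hv
    by_contra hcon
    simp only [Set.mem_union, Set.mem_iUnion, not_or, not_exists] at hcon
    obtain ⟨hc1, hc2⟩ := hcon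
    have h1 : vmax v.1 (fun s => MvPolynomial.aeval x (F j s)) = 1 := by
      by_contra h2
      exact hc1 j h2
    have h2 : vmax v.1 x = 1 := by
      by_contra h3
      exact hc2 h3
    simp only [h2, one_pow] at hlt
    have h3 : vmax v.1 (fun s => MvPolynomial.aeval x (F j s)) < 1 := by
      unfold vmax
      rw [Finset.sup_lt_iff (by exact zero_lt_one)]
      exact fun s _ => hlt s
    exact absurd h1 h3.ne
  have hsub : truncSetG (κ := κ) d (fun i s I => (F i s).coeff I) s x ⊆
      {w : Place κ L | (∀ v ∈ S, ¬ (w.1.comap (algebraMap K L)).IsEquiv v.1) ∧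
      ∃ i, ∀ s, w.1 (MvPolynomial.aeval x (F i s)) < vmax w.1 x ^ d i} := by
    rintro w ⟨hw1, j, hj⟩
    refine ⟨fun v hv hequiv => ?_, j, fun s => ?_⟩
    · refine hs v hv ?_
      exact (hequiv.eq_one_iff_eq_one).mp hw1
    · rw [← hFv]; exact hj s
  have hN : ((truncSetG (κ := κ) d (fun i s I => (F i s).coeff I) s x).ncard : ℤ) ≤
      (countG κ F d S x : ℤ) := by
    exact_mod_cast Set.ncard_le_ncard hsub htr
  rw [hΘeq] at h5 h4
  have h6 : ∑ i, divHeight κ F d x i = (∑ i, (d i : ℤ)) * height κ x -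
      ∑ j, height κ (fun s => Fval (d j) (fun I => algebraMap K L ((F j s).coeff I)) x) := by
    simp only [divHeight, Finset.sum_sub_distrib, ← Finset.sum_mul, hFv]
  have h7 : (Module.finrank L (coneTangent G x) : ℤ) = n + 1 - N := by omega
  rw [h6]
  rw [h7] at h5
  push_cast at h5 ⊢
  linarith

end Main

end Pool.Agent.Lib.MP_44a246_ntN
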